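import Pool.Agent.Lib.MP_0170ef_an_helper93.Barrier

/-!
Task S6: the bounce, in the rescaled pure power regime.
-/

set_option autoImplicit false

open Set Filter Topology

namespace LinNi.H93

open LinNi

/-- the interval check used for the bounce -/
def HE (NE τE : ℝ) : Prop :=
  ∀ c ∈ Icc (0:ℝ) (1 / 10 ^ 8), ∀ γ ∈ Icc (8 / 10 : ℝ) 1, ∀ v m : ℝ → ℝ,
    (∀ s ∈ Icc 1 NE, SolAt c v m s) → v 1 = 3 / 10 → m 1 = 3 / 10 * (γ - 1) →
      v NE < 0 ∧ -1/2 < v NE ∧ ∀ G u μ, LinI c v 1 NE τE G u μ → u 1 = 1 → -15 / 100 ≤ μ 1 →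
        μ 1 ≤ 1 / 10 → ∀ T ∈ Icc 1 NE, v T = 0 → u T < 0

/-- first time a continuous function reaches a level -/
lemma exists_first {Y : ℝ → ℝ} {p q c : ℝ} (hpq : p ≤ q) (hY : ContinuousOn Y (Icc p q))
    (h1 : Y p < c) (h2 : c ≤ Y q) : ∃ t ∈ Ioc p q, Y t = c ∧ ∀ s ∈ Ico p t, Y s < c := by
  set S := {t ∈ Icc p q | c ≤ Y t} with hS
  have hSc : IsClosed S := hY.preimage_isClosed_of_isClosed isClosed_Icc isClosed_Ici
  have hSne : S.Nonempty := ⟨q, right_mem_Icc.2 hpq, h2⟩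
  have hbdd : BddBelow S := ⟨p, fun t ht => ht.1.1⟩
  have htS : sInf S ∈ S := hSc.csInf_mem hSne hbdd
  set t := sInf S with ht
  have hbef : ∀ s ∈ Ico p t, Y s < c := by
    intro s hs
    by_contra h
    push Not at h
    exact absurd (csInf_le hbdd (⟨⟨hs.1, hs.2.le.trans htS.1.2⟩, h⟩ : s ∈ S)) (not_le.2 hs.2)
  have hpt : p < t := by
    rcases eq_or_lt_of_le htS.1.1 with h | h
    · exfalso
      have := htS.2
      rw [← h] at this
      linarith
    · exact h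
  refine ⟨t, ⟨hpt, htS.1.2⟩, le_antisymm ?_ htS.2, hbef⟩
  have h3 : Tendsto Y (𝓝[<] t) (𝓝 (Y t)) := by
    have h4 : ContinuousWithinAt Y (Icc p q) t := hY t htS.1
    refine h4.tendsto.mono_left ?_
    rw [nhdsWithin_le_iff]
    filter_upwards [Ioo_mem_nhdsLT hpt] with s hs using ⟨hs.1.le, hs.2.le.trans htS.1.2⟩
  refine le_of_tendsto h3 ?_
  filter_upwards [Ioo_mem_nhdsLT hpt] with s hs using (hbef s ⟨hs.1.le, hs.2⟩).le

/-- the quotient `F (v) / v` -/
noncomputable def Kq (a t : ℝ) : ℝ := F 1 (V 1 a t) / V 1 a t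

lemma F_one_zero : F 1 0 = 0 := by
  rw [F_of_mem ⟨by norm_num, by norm_num⟩]
  unfold f; norm_num

lemma Kq_mul (a t : ℝ) : Kq a t * V 1 a t = F 1 (V 1 a t) := by
  unfold Kq
  rcases eq_or_ne (V 1 a t) 0 with h | h
  · rw [h, F_one_zero]; simp
  · field_simp

lemma Kq_of_pos {a t : ℝ} (h0 : 0 < V 1 a t) (h2 : V 1 a t ≤ 2) :
    Kq a t = V 1 a t ^ 3 + V 1 a t ^ 6 := by
  unfold Kq
  rw [F_of_mem ⟨by linarith, h2⟩]
  unfold f
  field_simp

lemma hasDerivAt_MK (a t : ℝ) : HasDerivAt (M 1 a) (-(t ^ 2 * (Kq a t * V 1 a t))) t := by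
  rw [Kq_mul]
  exact hasDerivAt_M one_mem a t

/-- the solution up to time `10 t₂` and beyond: there is a time `t₀ ≥ 10 t₂` with
`t₀² V³ = 27/1000`, `g ≥ 8/10`, and `t² V³ ≤ 27/1000` before -/
lemma reach {a p : ℝ} (ha : 0 < a) (ha2 : a < 2) (hp : 1000 ≤ p) (hV : 0 < V 1 a p)
    (hg : V 1 a p + M 1 a p / p = V 1 a p / 3)
    (hw : p ^ 2 * (V 1 a p ^ 3 + V 1 a p ^ 6) ≤ 3 / 1000) :
    ∃ t₀, 10 * p < t₀ ∧ t₀ ^ 2 * V 1 a t₀ ^ 3 = 27 / 1000 ∧ 0 ≤ 20 / 100 * V 1 a t₀ + M 1 a t₀ / t₀ ∧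
      ∀ t ∈ Icc p t₀, 0 < V 1 a t ∧ t ^ 2 * V 1 a t ^ 3 ≤ 27 / 1000 := by
  set x := V 1 a p with hx
  have hp0 : 0 < p := by linarith
  have hle2 : ∀ t, 0 ≤ t → V 1 a t ≤ 2 := fun t ht => (V_le one_mem ha ht).trans ha2.le
  have hanti : ∀ t, p ≤ t → V 1 a t ≤ x := by
    intro t ht
    exact (V_strictAntiOn one_mem ha).antitoneOn (mem_Ici.2 hp0.le)
      (mem_Ici.2 (hp0.le.trans ht)) ht
  -- concavity
  have hconc : ∀ t, p ≤ t → t * V 1 a t ≤ x * (2 * p + t) / 3 := by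
    intro t ht
    have hd : ∀ s, p ≤ s → HasDerivAt (fun s => s * V 1 a s - x / 3 * s)
        (V 1 a s + M 1 a s / s - x / 3 * 1) s := fun s hs =>
      (hasDerivAt_z one_mem (hp0.trans_le hs).ne').fun_sub ((hasDerivAt_id' s).const_mul (x / 3))
    have hA : AntitoneOn (fun s => s * V 1 a s - x / 3 * s) (Icc p t) := by
      apply antitoneOn_of_deriv_nonpos (convex_Icc _ _)
      · intro s hs
        exact (hd s hs.1).continuousAt.continuousWithinAt
      · intro s hs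
        rw [interior_Icc] at hs
        exact (hd s hs.1.le).differentiableAt.differentiableWithinAt
      · intro s hs
        rw [interior_Icc] at hs
        rw [(hd s hs.1.le).deriv]
        have := z'_antitone (a := a) one_mem (mem_Ioi.2 hp0) (mem_Ioi.2 (hp0.trans hs.1)) hs.1.le
        simp only at this
        linarith
    have := hA (left_mem_Icc.2 ht) (right_mem_Icc.2 ht) ht
    simp only at this
    rw [← hx] at this
    linarith
  -- first stage: `V > 0` on `[p, 10 p]`, `t² V³ ≤ 6.4 p² x³`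
  have hY1 : ∀ t ∈ Icc p (10 * p), 0 < V 1 a t → t ^ 2 * V 1 a t ^ 3 ≤ 64 / 10 * (p ^ 2 * x ^ 3) := by
    intro t ht hVt
    have ht0 : 0 < t := hp0.trans_le ht.1
    have h1 := hconc t ht.1
    have h2 : (t * V 1 a t) ^ 3 ≤ (x * (2 * p + t) / 3) ^ 3 := pow_le_pow_left₀ (by positivity) h1 3
    have h3 : (2 * p + t) ^ 3 ≤ 1728 / 10 * p ^ 2 * t := by
      have : 0 ≤ (10 * p - t) * (t ^ 2 + 16 * p * t - 8 / 10 * p ^ 2) := by
        apply mul_nonneg (by linarith [ht.2])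
        have h0 := mul_le_mul_of_nonneg_left ht.1 hp0.le
        linarith only [h0, sq_nonneg t, sq_nonneg p]
      linarith only [this]
    have h4 : t * (t ^ 2 * V 1 a t ^ 3) ≤ t * (64 / 10 * (p ^ 2 * x ^ 3)) := by
      calc t * (t ^ 2 * V 1 a t ^ 3) = (t * V 1 a t) ^ 3 := by ring
        _ ≤ (x * (2 * p + t) / 3) ^ 3 := h2
        _ = x ^ 3 / 27 * (2 * p + t) ^ 3 := by ring
        _ ≤ x ^ 3 / 27 * (1728 / 10 * p ^ 2 * t) := by gcongr
        _ = t * (64 / 10 * (p ^ 2 * x ^ 3)) := by ring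
    exact le_of_mul_le_mul_left h4 ht0
  have hx3 : 0 < x ^ 3 := by positivity
  have hwx : p ^ 2 * x ^ 3 * (1 + x ^ 3) ≤ 3 / 1000 := by
    have : p ^ 2 * x ^ 3 * (1 + x ^ 3) = p ^ 2 * (x ^ 3 + x ^ 6) := by ring
    rw [this]; exact hw
  have hYx : p ^ 2 * x ^ 3 ≤ 3 / 1000 := by
    have : 0 ≤ p ^ 2 * x ^ 3 * x ^ 3 := by positivity
    linarith only [hwx, this]
  have hstage1 := low_barrier (κ := 2 / 3) (p := p) (q := 10 * p) (y := V 1 a) (ν := M 1 a)
    (K := Kq a) hp0 (fun t ht => (solAt_VM one_mem a (hp0.trans_le ht.1).ne').1)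
    (fun t _ => hasDerivAt_MK a t) (by
      intro t ht hVt
      have ht0 : 0 < t := hp0.trans_le ht.1
      rw [Kq_of_pos hVt (hle2 t ht0.le)]
      have h1 := hY1 t ⟨ht.1, ht.2.le⟩ hVt
      have h2 : V 1 a t ^ 3 ≤ x ^ 3 := pow_le_pow_left₀ hVt.le (hanti t ht.1) 3
      have h3 : t ^ 2 * (V 1 a t ^ 3 + V 1 a t ^ 6) = t ^ 2 * V 1 a t ^ 3 * (1 + V 1 a t ^ 3) := by
        ring
      rw [h3]
      have h4 : t ^ 2 * V 1 a t ^ 3 * (1 + V 1 a t ^ 3) ≤
          64 / 10 * (p ^ 2 * x ^ 3) * (1 + x ^ 3) := by gcongr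
      linarith only [h4, hwx]) hV (by rw [← hx]; linarith)
  -- `z'` at time `10 p`
  have hz' : 323 / 1000 * x ≤ V 1 a (10 * p) + M 1 a (10 * p) / (10 * p) := by
    set C := x ^ 4 * (1 + x ^ 3) / 81 with hC
    have hd : ∀ s, p ≤ s → HasDerivAt
        (fun s => (V 1 a s + M 1 a s / s) +
          C * (s ^ 2 / 2 + 20 * p * s - 44 * p ^ 3 / s - 8 * p ^ 4 / s ^ 2))
        (-(s * F 1 (V 1 a s)) + C * (s + 20 * p + 44 * p ^ 3 / s ^ 2 + 16 * p ^ 4 / s ^ 3)) s := by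
      intro s hs
      have hs0 : 0 < s := hp0.trans_le hs
      have e1 := hasDerivAt_z' (c := 1) (a := a) one_mem hs0.ne'
      have e2 : HasDerivAt (fun s => s ^ 2 / 2 + 20 * p * s - 44 * p ^ 3 / s - 8 * p ^ 4 / s ^ 2)
          (s + 20 * p + 44 * p ^ 3 / s ^ 2 + 16 * p ^ 4 / s ^ 3) s := by
        have f1 := (hasDerivAt_pow 2 s).div_const 2
        have f2 := (hasDerivAt_id' s).const_mul (20 * p)
        have f3 := (hasDerivAt_const s (44 * p ^ 3)).fun_div (hasDerivAt_id' s) hs0.ne'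
        have f4 := (hasDerivAt_const s (8 * p ^ 4)).fun_div (hasDerivAt_pow 2 s) (by positivity)
        refine (((f1.fun_add f2).fun_sub f3).fun_sub f4).congr_deriv ?_
        simp only [Nat.cast_ofNat, Nat.add_one_sub_one, pow_one]
        field_simp
        ring
      exact e1.fun_add (e2.const_mul C)
    have hmono : MonotoneOn (fun s => (V 1 a s + M 1 a s / s) +
          C * (s ^ 2 / 2 + 20 * p * s - 44 * p ^ 3 / s - 8 * p ^ 4 / s ^ 2)) (Icc p (10 * p)) := by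
      apply monotoneOn_of_deriv_nonneg (convex_Icc _ _)
      · intro s hs
        exact (hd s hs.1).continuousAt.continuousWithinAt
      · intro s hs
        rw [interior_Icc] at hs
        exact (hd s hs.1.le).differentiableAt.differentiableWithinAt
      · intro s hs
        rw [interior_Icc] at hs
        rw [(hd s hs.1.le).deriv]
        have hs0 : 0 < s := hp0.trans hs.1
        obtain ⟨hVs, -⟩ := hstage1 s ⟨hs.1.le, hs.2.le⟩
        rw [F_of_mem ⟨by linarith, hle2 s hs0.le⟩]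
        set y := V 1 a s with hy
        have h1 := hconc s hs.1.le
        rw [← hy] at h1
        have h2 : (s * y) ^ 4 ≤ (x * (2 * p + s) / 3) ^ 4 := pow_le_pow_left₀ (by positivity) h1 4
        have h3 : y ^ 3 ≤ x ^ 3 := pow_le_pow_left₀ hVs.le (hanti s hs.1.le) 3
        have h4 : s * f 1 y = (s * y) ^ 4 * (1 + y ^ 3) / s ^ 3 := by
          unfold f; field_simp
        have h5 : (s * y) ^ 4 * (1 + y ^ 3) ≤ (x * (2 * p + s) / 3) ^ 4 * (1 + x ^ 3) := by
          gcongr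
        have h6 : (x * (2 * p + s) / 3) ^ 4 * (1 + x ^ 3) = C * (2 * p + s) ^ 4 := by
          rw [hC]; ring
        have h7 : (2 * p + s) ^ 4 ≤
            (s + 20 * p + 44 * p ^ 3 / s ^ 2 + 16 * p ^ 4 / s ^ 3) * s ^ 3 := by
          have e : (s + 20 * p + 44 * p ^ 3 / s ^ 2 + 16 * p ^ 4 / s ^ 3) * s ^ 3
              = s ^ 4 + 20 * p * s ^ 3 + 44 * p ^ 3 * s + 16 * p ^ 4 := by
            field_simp
          rw [e]
          linarith only [mul_nonneg (mul_nonneg hp0.le hs0.le) (sq_nonneg (s - p))]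
        have hC0 : 0 ≤ C := by rw [hC]; positivity
        have h8 : s * f 1 y ≤ C * (s + 20 * p + 44 * p ^ 3 / s ^ 2 + 16 * p ^ 4 / s ^ 3) := by
          rw [h4, div_le_iff₀ (by positivity)]
          calc (s * y) ^ 4 * (1 + y ^ 3) ≤ C * (2 * p + s) ^ 4 := by rw [← h6]; exact h5
            _ ≤ C * ((s + 20 * p + 44 * p ^ 3 / s ^ 2 + 16 * p ^ 4 / s ^ 3) * s ^ 3) := by gcongr
            _ = _ := by ring
        linarith
    have h1 := hmono (left_mem_Icc.2 (by linarith)) (right_mem_Icc.2 (by linarith))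
      (by linarith : p ≤ 10 * p)
    simp only at h1
    rw [← hx, hg] at h1
    have e1 : C * (p ^ 2 / 2 + 20 * p * p - 44 * p ^ 3 / p - 8 * p ^ 4 / p ^ 2)
        = -(315 / 10) * (C * p ^ 2) := by field_simp; ring
    have e2 : C * ((10 * p) ^ 2 / 2 + 20 * p * (10 * p) - 44 * p ^ 3 / (10 * p)
        - 8 * p ^ 4 / (10 * p) ^ 2) = 24552 / 100 * (C * p ^ 2) := by field_simp; ring
    rw [e1, e2] at h1
    have e3 : C * p ^ 2 = x * (p ^ 2 * x ^ 3 * (1 + x ^ 3)) / 81 := by rw [hC]; ring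
    have e4 : x * (p ^ 2 * x ^ 3 * (1 + x ^ 3)) ≤ x * (3 / 1000) := by gcongr
    rw [e3] at h1
    linarith
  set q := 10 * p with hq
  have hq0 : 0 < q := by linarith
  have hVq : V 1 a q ≤ 4 / 10 * x := by
    have := hconc q (by linarith)
    have e : x * (2 * p + q) / 3 = q * (4 / 10 * x) := by rw [hq]; ring
    rw [e] at this
    exact le_of_mul_le_mul_left this hq0
  have hVq0 : 0 < V 1 a q := (hstage1 q ⟨by linarith, le_rfl⟩).1
  have hgq : 0 ≤ 20 / 100 * V 1 a q + M 1 a q / q := by linarith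
  have hYq : q ^ 2 * V 1 a q ^ 3 < 27 / 1000 := by
    have := hY1 q ⟨by linarith, le_rfl⟩ hVq0
    linarith
  -- the second stage barrier
  have hstage2 : ∀ R, (∀ t ∈ Ico q R, t ^ 2 * V 1 a t ^ 3 ≤ 27 / 1000) →
      ∀ t ∈ Icc q R, 0 < V 1 a t ∧ 0 ≤ 20 / 100 * V 1 a t + M 1 a t / t := by
    intro R hR
    apply low_barrier (κ := 20 / 100) (K := Kq a) hq0
      (fun t ht => (solAt_VM one_mem a (hq0.trans_le ht.1).ne').1)
      (fun t _ => hasDerivAt_MK a t) _ hVq0 hgq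
    intro t ht hVt
    have ht0 : 0 < t := hq0.trans_le ht.1
    have ht1 : 1 ≤ t := by linarith [ht.1]
    rw [Kq_of_pos hVt (hle2 t ht0.le)]
    have h1 := hR t ht
    have h2 : V 1 a t ^ 3 ≤ 27 / 1000 := by
      have : V 1 a t ^ 3 ≤ t ^ 2 * V 1 a t ^ 3 := by
        apply le_mul_of_one_le_left (by positivity)
        exact one_le_pow₀ ht1
      linarith
    have h3 : t ^ 2 * (V 1 a t ^ 3 + V 1 a t ^ 6) = t ^ 2 * V 1 a t ^ 3 * (1 + V 1 a t ^ 3) := by
      ring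
    rw [h3]
    have h4 : t ^ 2 * V 1 a t ^ 3 * (1 + V 1 a t ^ 3) ≤ 27 / 1000 * (1 + 27 / 1000) := by gcongr
    norm_num at h4 ⊢
    linarith
  -- the level is reached
  have hex : ∃ R, q ≤ R ∧ 27 / 1000 ≤ R ^ 2 * V 1 a R ^ 3 := by
    by_contra hcon
    push Not at hcon
    set C := q * V 1 a q ^ 3 with hC
    have hC0 : 0 < C := by positivity
    set R := q + 1 / C with hR
    have hRq : q ≤ R := by
      have : 0 < 1 / C := by positivity
      linarith
    have hb := hstage2 R (fun t ht => (hcon t ht.1).le)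
    have hd : ∀ s ∈ Icc q R, HasDerivAt (fun s => s * V 1 a s ^ 3)
        (V 1 a s ^ 2 * (V 1 a s + 3 * (M 1 a s / s))) s := by
      intro s hs
      have hs0 : 0 < s := hq0.trans_le hs.1
      have h1 := (solAt_VM one_mem a hs0.ne').1.fun_pow 3
      refine ((hasDerivAt_id' s).fun_mul h1).congr_deriv ?_
      simp only [Nat.cast_ofNat, Nat.add_one_sub_one]
      field_simp
    have hmono : MonotoneOn (fun s => s * V 1 a s ^ 3) (Icc q R) := by
      apply monotoneOn_of_deriv_nonneg (convex_Icc _ _)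
      · intro s hs
        exact (hd s hs).continuousAt.continuousWithinAt
      · intro s hs
        rw [interior_Icc] at hs
        exact (hd s ⟨hs.1.le, hs.2.le⟩).differentiableAt.differentiableWithinAt
      · intro s hs
        rw [interior_Icc] at hs
        rw [(hd s ⟨hs.1.le, hs.2.le⟩).deriv]
        obtain ⟨h1, h2⟩ := hb s ⟨hs.1.le, hs.2.le⟩
        apply mul_nonneg (by positivity)
        linarith
    have h1 := hmono (left_mem_Icc.2 hRq) (right_mem_Icc.2 hRq) hRq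
    simp only at h1
    have h2 := hcon R hRq
    have hR0 : 0 < R := hq0.trans_le hRq
    have h3 : R * C ≤ R ^ 2 * V 1 a R ^ 3 := by
      calc R * C ≤ R * (R * V 1 a R ^ 3) := by gcongr
        _ = _ := by ring
    have h4 : 1 ≤ R * C := by
      have : R * C = q * C + 1 := by rw [hR]; field_simp
      rw [this]
      have : 0 < q * C := by positivity
      linarith
    linarith
  obtain ⟨R, hRq, hR⟩ := hex
  have hcontY : ContinuousOn (fun t => t ^ 2 * V 1 a t ^ 3) (Icc q R) := by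
    have := V_cont (c := 1) one_mem a
    fun_prop
  obtain ⟨t₀, ht₀, hYt₀, hbef⟩ := exists_first hRq hcontY hYq hR
  have h2 := hstage2 t₀ (fun t ht => (hbef t ht).le)
  refine ⟨t₀, ht₀.1, hYt₀, (h2 t₀ ⟨ht₀.1.le, le_rfl⟩).2, fun t ht => ?_⟩
  rcases le_or_gt t q with h | h
  · have h3 := hstage1 t ⟨ht.1, h⟩
    refine ⟨h3.1, (hY1 t ⟨ht.1, h⟩ h3.1).trans ?_⟩
    linarith
  · refine ⟨(h2 t ⟨h.le, ht.2⟩).1, ?_⟩
    rcases eq_or_lt_of_le ht.2 with h4 | h4
    · rw [h4]; exact hYt₀.le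
    · exact (hbef t ⟨h.le, h4⟩).le

/-- the chord of the difference of two solutions: uniqueness from a positive time -/
lemma sol_unique {c s N : ℝ} (hc : c ∈ Icc (0:ℝ) 1) {v m v' m' : ℝ → ℝ} (hs : 0 < s)
    (h : ∀ t ∈ Icc s N, SolAt c v m t) (h' : ∀ t ∈ Icc s N, SolAt c v' m' t)
    (hv : v s = v' s) (hm : m s = m' s) : ∀ t ∈ Icc s N, v t = v' t := by
  intro t ht
  have h1 := (stab hc hs h h' t ht).1
  rw [hv, hm, sub_self, sub_self, abs_zero, max_self, zero_mul] at h1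
  have h2 : t * v t - t * v' t = 0 := abs_eq_zero.1 (le_antisymm h1 (abs_nonneg _))
  have h3 : 0 < t := hs.trans_le ht.1
  have h4 : t * (v t - v' t) = 0 := by linarith
  rcases mul_eq_zero.1 h4 with h5 | h5
  · exact absurd h5 h3.ne'
  · linarith

/-- task S6 -/
theorem bounce {a t₂ τ NE τE : ℝ} (ha : 0 < a) (ha2 : a < 2) (ht₂ : 1000 ≤ t₂)
    (hV : 0 < V 1 a t₂) (hg : V 1 a t₂ + M 1 a t₂ / t₂ = V 1 a t₂ / 3)
    (hw : t₂ ^ 2 * (V 1 a t₂ ^ 3 + V 1 a t₂ ^ 6) ≤ 3 / 1000) (hτ : 0 < τ)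
    (hlin : ∀ G u μ, Lin 1 (V 1 a) t₂ τ G u μ → 0 < u t₂ ∧ 85 / 100 * u t₂ ≤ u t₂ + μ t₂ / t₂ ∧
      u t₂ + μ t₂ / t₂ ≤ 11 / 10 * u t₂) (hNE : 1 < NE) (hτE : 0 < τE) (hE : HE NE τE) :
    LocL a := by
  obtain ⟨t₀, ht₀, hY, hgt, hbefore⟩ := reach ha ha2 ht₂ hV hg hw
  have ht₂0 : 0 < t₂ := by linarith
  have ht₀0 : 0 < t₀ := by linarith
  have ht₀4 : 10 ^ 4 ≤ t₀ := by norm_num; linarith
  have ht₂t₀ : t₂ ≤ t₀ := by linarith
  obtain ⟨hVt₀, -⟩ := hbefore t₀ ⟨ht₂t₀, le_rfl⟩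
  -- the scale
  set k := t₀ ^ (1 / 3 : ℝ) with hk
  have hk0 : 0 < k := Real.rpow_pos_of_pos ht₀0 _
  have hk3 : k ^ 3 = t₀ := by
    rw [hk, ← Real.rpow_natCast, ← Real.rpow_mul ht₀0.le]
    norm_num
  have hk1 : 1 ≤ k := by
    by_contra h
    push Not at h
    have : k ^ 3 ≤ 1 := pow_le_one₀ hk0.le h.le
    rw [hk3] at this
    norm_num at ht₀4
    linarith
  have hkV : k ^ 2 * V 1 a t₀ = 3 / 10 := by
    have h1 : (k ^ 2 * V 1 a t₀) ^ 3 = (3 / 10) ^ 3 := by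
      calc (k ^ 2 * V 1 a t₀) ^ 3 = (k ^ 3) ^ 2 * V 1 a t₀ ^ 3 := by ring
        _ = (3 / 10) ^ 3 := by rw [hk3, hY]; norm_num
    exact (pow_left_inj₀ (by positivity) (by norm_num) (by norm_num : 3 ≠ 0)).1 h1
  set c := 1 / t₀ ^ 2 with hc
  have hcE : c ∈ Icc (0:ℝ) (1 / 10 ^ 8) := by
    refine ⟨by positivity, ?_⟩
    rw [hc]
    apply one_div_le_one_div_of_le (by norm_num)
    calc (10:ℝ) ^ 8 = (10 ^ 4) ^ 2 := by norm_num
      _ ≤ t₀ ^ 2 := pow_le_pow_left₀ (by norm_num) ht₀4 2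
  have hc1 : c ∈ Icc (0:ℝ) 1 := ⟨hcE.1, hcE.2.trans (by norm_num)⟩
  have hck : c = 1 / k ^ 6 := by rw [hc, ← hk3]; ring
  have hMneg : M 1 a t₀ < 0 := M_neg one_mem ha ht₀0
  set γ := 1 + M 1 a t₀ / (t₀ * V 1 a t₀) with hγ
  have hMγ : M 1 a t₀ = (γ - 1) * (t₀ * V 1 a t₀) := by rw [hγ]; field_simp; ring
  have hγmem : γ ∈ Icc (8 / 10 : ℝ) 1 := by
    constructor
    · have h1 : M 1 a t₀ / t₀ = (γ - 1) * V 1 a t₀ := by rw [hMγ]; field_simp
      rw [h1] at hgt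
      by_contra h
      push Not at h
      have h9 := mul_neg_of_neg_of_pos (by linarith only [h] : γ - 8 / 10 < 0) hVt₀
      linarith only [h9, hgt]
    · by_contra h
      push Not at h
      have : 0 ≤ (γ - 1) * (t₀ * V 1 a t₀) := mul_nonneg (by linarith) (by positivity)
      linarith
  -- the rescaled solution
  obtain ⟨v, m, hv1, hm1, hvm⟩ := exists_sol_one hc1 (3 / 10) (3 / 10 * (γ - 1))
    (by linarith : 1 < NE + 1)
  have hsol : ∀ s ∈ Icc 1 NE, SolAt c v m s := fun s hs =>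
    hvm s ⟨by linarith [hs.1], by linarith [hs.2]⟩
  obtain ⟨hvN, hvN2, hlinE⟩ := hE c hcE γ hγmem v m hsol hv1 hm1
  -- monotonicity and range
  have hmneg : ∀ s ∈ Icc 1 NE, m s ≤ 0 := by
    intro s hs
    have hA : AntitoneOn m (Icc 1 s) := by
      apply antitoneOn_of_deriv_nonpos (convex_Icc _ _)
      · intro r hr
        exact (hsol r ⟨hr.1, hr.2.trans hs.2⟩).2.continuousAt.continuousWithinAt
      · intro r hr
        rw [interior_Icc] at hr
        exact (hsol r ⟨hr.1.le, hr.2.le.trans hs.2⟩).2.differentiableAt.differentiableWithinAt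
      · intro r hr
        rw [interior_Icc] at hr
        rw [(hsol r ⟨hr.1.le, hr.2.le.trans hs.2⟩).2.deriv]
        have := F_nonneg hc1 (v r)
        have : 0 ≤ r ^ 2 * F c (v r) := by positivity
        linarith
    have h1 := hA (left_mem_Icc.2 hs.1) (right_mem_Icc.2 hs.1) hs.1
    rw [hm1] at h1
    have : 3 / 10 * (γ - 1) ≤ 0 := by linarith [hγmem.2]
    linarith
  have hvanti : AntitoneOn v (Icc 1 NE) := by
    apply antitoneOn_of_deriv_nonpos (convex_Icc _ _)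
    · intro r hr
      exact (hsol r hr).1.continuousAt.continuousWithinAt
    · intro r hr
      rw [interior_Icc] at hr
      exact (hsol r ⟨hr.1.le, hr.2.le⟩).1.differentiableAt.differentiableWithinAt
    · intro r hr
      rw [interior_Icc] at hr
      rw [(hsol r ⟨hr.1.le, hr.2.le⟩).1.deriv]
      exact div_nonpos_of_nonpos_of_nonneg (hmneg r ⟨hr.1.le, hr.2.le⟩) (by positivity)
  have hvr : ∀ s ∈ Icc 1 NE, v s ∈ Icc (-1/2 : ℝ) (3 / 10) := by
    intro s hs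
    refine ⟨hvN2.le.trans (hvanti hs (right_mem_Icc.2 hNE.le) hs.2), ?_⟩
    rw [← hv1]
    exact hvanti (left_mem_Icc.2 hNE.le) hs hs.1
  -- pull back
  set N := t₀ * NE with hN
  have ht₀N : t₀ < N := by rw [hN]; exact lt_mul_of_one_lt_right ht₀0 hNE
  have hdiv : ∀ t ∈ Icc t₀ N, t / t₀ ∈ Icc 1 NE := by
    intro t ht
    constructor
    · rw [le_div_iff₀ ht₀0]; linarith [ht.1]
    · rw [div_le_iff₀ ht₀0]; rw [hN] at ht; linarith [ht.2]
  have hVeq : ∀ t ∈ Icc t₀ N, V 1 a t = v (t / t₀) / k ^ 2 := by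
    apply sol_unique (m := M 1 a) (m' := fun t => k * m (t / t₀)) one_mem ht₀0
    · intro t ht
      exact solAt_VM one_mem a (ht₀0.trans_le ht.1).ne'
    · intro t ht
      have hs := hdiv t ht
      have ht0 : 0 < t := ht₀0.trans_le ht.1
      have hin : HasDerivAt (fun t => t / t₀) (1 / t₀) t := (hasDerivAt_id' t).div_const t₀
      have h1 : HasDerivAt (fun t => v (t / t₀) / k ^ 2)
          (m (t / t₀) / (t / t₀) ^ 2 * (1 / t₀) / k ^ 2) t :=
        ((hsol _ hs).1.comp t hin).div_const _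
      have h2 : HasDerivAt (fun t => k * m (t / t₀))
          (k * (-((t / t₀) ^ 2 * F c (v (t / t₀))) * (1 / t₀))) t :=
        ((hsol _ hs).2.comp t hin).const_mul k
      have hr := hvr _ hs
      have hk2 : 1 ≤ k ^ 2 := one_le_pow₀ hk1
      have hr' : v (t / t₀) / k ^ 2 ∈ Icc (-1/2:ℝ) 2 := by
        constructor
        · rw [le_div_iff₀ (by positivity)]
          linarith only [hr.1, hk2]
        · rw [div_le_iff₀ (by positivity)]
          linarith only [hr.2, hk2]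
      constructor
      · refine h1.congr_deriv ?_
        rw [← hk3]
        field_simp
      · refine h2.congr_deriv ?_
        rw [F_of_mem ⟨hr.1, hr.2.trans (by norm_num)⟩, F_of_mem hr', hck, ← hk3]
        unfold f
        field_simp
    · rw [div_self ht₀0.ne', hv1, ← hkV]
      field_simp
    · rw [div_self ht₀0.ne', hm1, hMγ, ← hkV, ← hk3]
      ring
  -- crossing
  have hVN : V 1 a N = v NE / k ^ 2 := by
    rw [hVeq N ⟨ht₀N.le, le_rfl⟩]
    congr 2
    rw [hN]; field_simp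
  have hVNneg : V 1 a N < 0 := by
    rw [hVN]; exact div_neg_of_neg_of_pos hvN (by positivity)
  have hVN2 : -1/2 < V 1 a N := by
    rw [hVN, lt_div_iff₀ (by positivity)]
    have hk2 : 1 ≤ k ^ 2 := one_le_pow₀ hk1
    linarith only [hk2, hvN2]
  have hcr : Crosses a := by
    obtain ⟨s, hs, hs0⟩ := intermediate_value_Icc' ht₀N.le (V_cont one_mem a).continuousOn
      (⟨hVNneg.le, hVt₀.le⟩ : (0:ℝ) ∈ Icc (V 1 a N) (V 1 a t₀))
    exact ⟨s, ht₀0.trans_le hs.1, hs0⟩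
  have hTN : T a < N := (T_lt_iff ha hcr (by linarith)).2 hVNneg
  have ht₀T : t₀ < T a := (lt_T_iff ha hcr ht₀0.le).2 hVt₀
  set τ' := min τ (min (τE / t₀ ^ 2) (1 / 1000 / t₀ ^ 2)) with hτ'
  have hτ'0 : 0 < τ' := lt_min hτ (lt_min (by positivity) (by positivity))
  refine loc_L ha ha2 hτ'0 hcr hTN hVN2 fun G u μ hl => ?_
  obtain ⟨hu2, hlo, hup⟩ := hlin G u μ (Lin.mono_tau (hl.mono (ht₂t₀.trans ht₀N.le))
    (min_le_left _ _))
  have hmemN : ∀ t ∈ Icc t₂ t₀, t ∈ Ioc 0 N := fun t ht =>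
    ⟨ht₂0.trans_le ht.1, ht.2.trans ht₀N.le⟩
  -- bounds for `t² G`
  have hGb : ∀ t ∈ Icc t₂ t₀, |t ^ 2 * G t - t ^ 2 * fp 1 (V 1 a t)| ≤ 1 / 1000 := by
    intro t ht
    have h1 := hl.hG t (hmemN t ht)
    have ht0 : 0 < t := ht₂0.trans_le ht.1
    rw [← mul_sub, abs_mul, abs_of_pos (by positivity : 0 < t ^ 2)]
    calc t ^ 2 * |G t - fp 1 (V 1 a t)| ≤ t₀ ^ 2 * (1 / 1000 / t₀ ^ 2) := by
          apply mul_le_mul (pow_le_pow_left₀ ht0.le ht.2 2) _ (abs_nonneg _) (by positivity)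
          exact h1.trans ((min_le_right _ _).trans (min_le_right _ _))
      _ = 1 / 1000 := by field_simp
  have hfp0 : ∀ t ∈ Icc t₂ t₀, 0 ≤ t ^ 2 * fp 1 (V 1 a t) ∧ t ^ 2 * fp 1 (V 1 a t) ≤ 12 / 100 := by
    intro t ht
    obtain ⟨h1, h2⟩ := hbefore t ht
    have ht1 : 1 ≤ t := by linarith [ht.1]
    have h3 : V 1 a t ^ 3 ≤ 27 / 1000 := by
      have : V 1 a t ^ 3 ≤ t ^ 2 * V 1 a t ^ 3 := by
        apply le_mul_of_one_le_left (by positivity)
        exact one_le_pow₀ ht1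
      linarith
    have e : t ^ 2 * fp 1 (V 1 a t) = t ^ 2 * V 1 a t ^ 3 * (4 + 7 * V 1 a t ^ 3) := by
      unfold fp; ring
    rw [e]
    have h4 : 0 ≤ t ^ 2 * V 1 a t ^ 3 := by positivity
    constructor
    · positivity
    · calc t ^ 2 * V 1 a t ^ 3 * (4 + 7 * V 1 a t ^ 3) ≤ 27 / 1000 * (4 + 7 * (27 / 1000)) := by
            gcongr
        _ ≤ 12 / 100 := by norm_num
  have hlow := low_barrier (κ := 15 / 100) (p := t₂) (q := t₀) (y := u) (ν := μ) (K := G) ht₂0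
    (fun t ht => hl.du t (hmemN t ht)) (fun t ht => hl.dμ t (hmemN t ht)) (by
      intro t ht _
      have h1 := abs_le.1 (hGb t ⟨ht.1, ht.2.le⟩)
      have h2 := hfp0 t ⟨ht.1, ht.2.le⟩
      norm_num
      linarith [h1.2, h2.2]) hu2 (by linarith)
  have hupp := up_barrier (κ := 10 / 100) (p := t₂) (q := t₀) (y := u) (ν := μ) (K := G) ht₂0
    (fun t ht => hl.du t (hmemN t ht)) (fun t ht => hl.dμ t (hmemN t ht)) (by
      intro t ht
      have h1 := abs_le.1 (hGb t ⟨ht.1, ht.2.le⟩)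
      have h2 := hfp0 t ⟨ht.1, ht.2.le⟩
      norm_num
      linarith [h1.1, h2.1]) (fun t ht => (hlow t ht).1) (by linarith)
  obtain ⟨hu0, hlo0⟩ := hlow t₀ ⟨ht₂t₀, le_rfl⟩
  have hup0 := hupp t₀ ⟨ht₂t₀, le_rfl⟩
  -- the rescaled linear solution
  have hLI : LinI c v 1 NE τE (fun s => t₀ ^ 2 * G (t₀ * s)) (fun s => u (t₀ * s) / u t₀)
      (fun s => μ (t₀ * s) / (t₀ * u t₀)) := by
    have hmem : ∀ s ∈ Icc 1 NE, t₀ * s ∈ Ioc 0 N := by
      intro s hs
      refine ⟨by have := hs.1; positivity, ?_⟩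
      rw [hN]
      exact mul_le_mul_of_nonneg_left hs.2 ht₀0.le
    have hmem' : ∀ s ∈ Icc 1 NE, t₀ * s ∈ Icc t₀ N := by
      intro s hs
      refine ⟨?_, (hmem s hs).2⟩
      exact le_mul_of_one_le_right ht₀0.le hs.1
    have hin : ∀ s : ℝ, HasDerivAt (fun s => t₀ * s) t₀ s := fun s => by
      simpa using (hasDerivAt_id' s).const_mul t₀
    refine ⟨fun s hs => ?_, fun s hs => ?_, fun s hs => ?_⟩
    · have hs0 : 0 < s := by linarith [hs.1]
      have h1 : HasDerivAt (fun s => u (t₀ * s) / u t₀) (μ (t₀ * s) / (t₀ * s) ^ 2 * t₀ / u t₀) s :=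
        ((hl.du _ (hmem s hs)).comp s (hin s)).div_const _
      refine h1.congr_deriv ?_
      field_simp
    · have h1 : HasDerivAt (fun s => μ (t₀ * s) / (t₀ * u t₀))
          (-((t₀ * s) ^ 2 * (G (t₀ * s) * u (t₀ * s))) * t₀ / (t₀ * u t₀)) s :=
        ((hl.dμ _ (hmem s hs)).comp s (hin s)).div_const _
      refine h1.congr_deriv ?_
      field_simp
    · have h1 := hl.hG _ (hmem s hs)
      have h2 := hVeq _ (hmem' s hs)
      have h3 : t₀ * s / t₀ = s := by field_simp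
      rw [h3] at h2
      have h4 : fp c (v s) = t₀ ^ 2 * fp 1 (V 1 a (t₀ * s)) := by
        rw [h2, hck, ← hk3]
        unfold fp
        field_simp
      rw [h4, ← mul_sub, abs_mul, abs_of_pos (by positivity : 0 < t₀ ^ 2)]
      calc t₀ ^ 2 * |G (t₀ * s) - fp 1 (V 1 a (t₀ * s))| ≤ t₀ ^ 2 * (τE / t₀ ^ 2) := by
            gcongr
            exact h1.trans ((min_le_right _ _).trans (min_le_left _ _))
        _ = τE := by field_simp
  have hμ : μ t₀ / (t₀ * u t₀) = (μ t₀ / t₀) / u t₀ := by field_simp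
  have hfin := hlinE _ _ _ hLI (by simp only [mul_one]; exact div_self hu0.ne')
    (by
      simp only [mul_one]
      rw [hμ, le_div_iff₀ hu0]
      linarith)
    (by
      simp only [mul_one]
      rw [hμ, div_le_iff₀ hu0]
      linarith)
    (T a / t₀) (hdiv (T a) ⟨ht₀T.le, hTN.le⟩) (by
      have h1 := hVeq (T a) ⟨ht₀T.le, hTN.le⟩
      rw [V_T hcr] at h1
      have h2 : v (T a / t₀) = 0 := by
        have h3 : v (T a / t₀) / k ^ 2 = 0 := h1.symm
        rcases div_eq_zero_iff.1 h3 with h4 | h4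
        · exact h4
        · exact absurd h4 (by positivity)
      exact h2)
  have h5 : t₀ * (T a / t₀) = T a := by field_simp
  rw [h5] at hfin
  exact (div_neg_iff.1 hfin).elim (fun h => by linarith [h.2]) (fun h => h.1)

end LinNi.H93
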