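import Pool.Agent.Lib.MP_0170ef_an.Lin

/-!
Task S3: divided differences in the initial value solve the linearised systems; local type of `T`.
-/

set_option autoImplicit false

open Set Filter Topology

namespace LinNi.H93

open LinNi

lemma dd_unif (c : ℝ) {τ : ℝ} (hτ : 0 < τ) : ∃ η > 0, ∀ p q v : ℝ, |p| ≤ 2 → |q| ≤ 2 → |v| ≤ 2 →
    |p - v| < η → |q - v| < η → |dd c p q - fp c v| ≤ τ := by
  have hcont : Continuous (fun x : ℝ × ℝ => dd c x.1 x.2) := by unfold dd; fun_prop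
  have hK : IsCompact (Icc (-2:ℝ) 2 ×ˢ Icc (-2:ℝ) 2) := isCompact_Icc.prod isCompact_Icc
  have hu := hK.uniformContinuousOn_of_continuous hcont.continuousOn
  rw [Metric.uniformContinuousOn_iff] at hu
  obtain ⟨η, hη, h⟩ := hu τ hτ
  refine ⟨η, hη, fun p q v hp hq hv h1 h2 => ?_⟩
  have := h (p, q) ⟨abs_le.1 hp, abs_le.1 hq⟩ (v, v) ⟨abs_le.1 hv, abs_le.1 hv⟩
    (by rw [Prod.dist_eq]; exact max_lt h1 h2)
  rw [← dd_self]
  exact (le_of_lt this)

lemma ddd_unif (c : ℝ) {τ : ℝ} (hτ : 0 < τ) : ∃ η > 0, ∀ p q r v : ℝ, |p| ≤ 2 → |q| ≤ 2 → |r| ≤ 2 →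
    |v| ≤ 2 → |p - v| < η → |q - v| < η → |r - v| < η → |ddd c p q r - hfp c v| ≤ τ := by
  have hcont : Continuous (fun x : ℝ × ℝ × ℝ => ddd c x.1 x.2.1 x.2.2) := by
    unfold ddd h5; fun_prop
  have hK : IsCompact (Icc (-2:ℝ) 2 ×ˢ (Icc (-2:ℝ) 2 ×ˢ Icc (-2:ℝ) 2)) :=
    isCompact_Icc.prod (isCompact_Icc.prod isCompact_Icc)
  have hu := hK.uniformContinuousOn_of_continuous hcont.continuousOn
  rw [Metric.uniformContinuousOn_iff] at hu
  obtain ⟨η, hη, h⟩ := hu τ hτ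
  refine ⟨η, hη, fun p q r v hp hq hr hv h1 h2 h3 => ?_⟩
  have := h (p, q, r) ⟨abs_le.1 hp, abs_le.1 hq, abs_le.1 hr⟩ (v, v, v)
    ⟨abs_le.1 hv, abs_le.1 hv, abs_le.1 hv⟩
    (by rw [Prod.dist_eq, Prod.dist_eq]; exact max_lt h1 (max_lt h2 h3))
  rw [← ddd_self]
  exact (le_of_lt this)

/-- for `x` near `a` the solutions stay in the physical range on `[0, N]` and are close -/
lemma near_range {c a N : ℝ} (hc : c ∈ Icc (0:ℝ) 1) (ha : 0 < a) (ha2 : a < 2) (hN : 0 < N)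
    (hV : -1/2 < V c a N) {η : ℝ} (hη : 0 < η) : ∃ δ > 0, ∀ x, |x - a| < δ → 0 < x ∧ x < 2 ∧
      ∀ s ∈ Icc 0 N, V c x s ∈ Icc (-1/2 : ℝ) 2 ∧ |V c x s - V c a s| < η := by
  set E := Real.exp (480 * N) with hE
  have hE0 : 0 < E := Real.exp_pos _
  refine ⟨min (min a (2 - a)) (min ((V c a N + 1/2) / E) (η / E)), ?_, fun x hx => ?_⟩
  · refine lt_min (lt_min ha (by linarith)) (lt_min (div_pos (by linarith) hE0) (div_pos hη hE0))
  rw [lt_min_iff, lt_min_iff, lt_min_iff, lt_div_iff₀ hE0, lt_div_iff₀ hE0] at hx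
  obtain ⟨⟨h1, h2⟩, h3, h4⟩ := hx
  rw [abs_lt] at h1 h2
  have hx0 : 0 < x := by linarith [h1.1]
  have hx2 : x < 2 := by linarith [h2.2]
  refine ⟨hx0, hx2, fun s hs => ?_⟩
  have hN' := V_lip (a := x) (a' := a) hc (right_mem_Icc.2 hN.le)
  have hs' := V_lip (a := x) (a' := a) hc hs
  have hdec := (V_strictAntiOn hc hx0).antitoneOn (mem_Ici.2 hs.1) (mem_Ici.2 hN.le) hs.2
  have hle := V_le hc hx0 hs.1
  rw [abs_le] at hN'
  exact ⟨⟨by linarith [hN'.1], by linarith⟩, hs'.trans_lt h4⟩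

/-- the difference quotient of `V` -/
lemma hasDerivAt_quot {c x z s : ℝ} (hc : c ∈ Icc (0:ℝ) 1) (hs : s ≠ 0) :
    HasDerivAt (fun s => (V c z s - V c x s) / (z - x)) ((M c z s - M c x s) / (z - x) / s ^ 2) s := by
  have := ((solAt_VM hc z hs).1.fun_sub (solAt_VM hc x hs).1).div_const (z - x)
  refine this.congr_deriv ?_
  ring

lemma hasDerivAt_quotM {c x z s : ℝ} (hc : c ∈ Icc (0:ℝ) 1) (hxr : V c x s ∈ Icc (-1/2:ℝ) 2)
    (hzr : V c z s ∈ Icc (-1/2:ℝ) 2) :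
    HasDerivAt (fun s => (M c z s - M c x s) / (z - x))
      (-(s ^ 2 * (dd c (V c z s) (V c x s) * ((V c z s - V c x s) / (z - x))))) s := by
  have := ((hasDerivAt_M hc z s).fun_sub (hasDerivAt_M hc x s)).div_const (z - x)
  refine this.congr_deriv ?_
  have e := F_eq_dd (c := c) hzr hxr
  have e2 : F c (V c z s) = F c (V c x s) + dd c (V c z s) (V c x s) * (V c z s - V c x s) := by
    linarith
  rw [e2]
  ring

lemma tendsto_quot {c x z : ℝ} (hc : c ∈ Icc (0:ℝ) 1) (hxz : z - x ≠ 0) :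
    Tendsto (fun s => (V c z s - V c x s) / (z - x)) (𝓝[>] 0) (𝓝 1) := by
  have h : Continuous (fun s => (V c z s - V c x s) / (z - x)) :=
    ((V_cont hc z).sub (V_cont hc x)).div_const _
  have h1 := h.tendsto 0
  simp only [V_zero hc, div_self hxz] at h1
  exact h1.mono_left nhdsWithin_le_nhds

lemma M_cont {c : ℝ} (hc : c ∈ Icc (0:ℝ) 1) (x : ℝ) : Continuous (M c x) :=
  continuous_iff_continuousAt.2 fun s => (hasDerivAt_M hc x s).continuousAt

lemma tendsto_quotM {c x z : ℝ} (hc : c ∈ Icc (0:ℝ) 1) :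
    Tendsto (fun s => (M c z s - M c x s) / (z - x)) (𝓝[>] 0) (𝓝 0) := by
  have h : Continuous (fun s => (M c z s - M c x s) / (z - x)) :=
    ((M_cont hc z).sub (M_cont hc x)).div_const _
  have h1 := h.tendsto 0
  simp only [M_zero hc, sub_self, zero_div] at h1
  exact h1.mono_left nhdsWithin_le_nhds

/-- S3 (a) -/
theorem near_lin {c a N τ : ℝ} (hc : c ∈ Icc (0:ℝ) 1) (ha : 0 < a) (ha2 : a < 2) (hN : 0 < N)
    (hV : -1/2 < V c a N) (hτ : 0 < τ) : ∃ δ > 0, ∀ x z, |x - a| < δ → |z - a| < δ → x ≠ z →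
      Lin c (V c a) N τ (fun s => dd c (V c z s) (V c x s))
        (fun s => (V c z s - V c x s) / (z - x)) (fun s => (M c z s - M c x s) / (z - x)) := by
  obtain ⟨η, hη, hu⟩ := dd_unif c hτ
  obtain ⟨δ, hδ, hr⟩ := near_range hc ha ha2 hN hV hη
  refine ⟨δ, hδ, fun x z hx hz hxz => ?_⟩
  obtain ⟨hx0, hx2, hxr⟩ := hr x hx
  obtain ⟨hz0, hz2, hzr⟩ := hr z hz
  obtain ⟨-, -, har⟩ := hr a (by rw [sub_self, abs_zero]; exact hδ)
  have hne : z - x ≠ 0 := sub_ne_zero.2 hxz.symm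
  refine ⟨fun s hs => hasDerivAt_quot hc hs.1.ne', fun s hs => ?_, tendsto_quot hc hne,
    tendsto_quotM hc, fun s hs => ?_⟩
  · exact hasDerivAt_quotM hc (hxr s ⟨hs.1.le, hs.2⟩).1 (hzr s ⟨hs.1.le, hs.2⟩).1
  · have h1 := hxr s ⟨hs.1.le, hs.2⟩
    have h2 := hzr s ⟨hs.1.le, hs.2⟩
    have h3 := har s ⟨hs.1.le, hs.2⟩
    exact hu _ _ _ (abs_le_two h2.1) (abs_le_two h1.1) (abs_le_two h3.1) h2.2 h1.2

/-- S3 (b) -/
theorem near_lin2 {c a N τ : ℝ} (hc : c ∈ Icc (0:ℝ) 1) (ha : 0 < a) (ha2 : a < 2) (hN : 0 < N)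
    (hV : -1/2 < V c a N) (hτ : 0 < τ) : ∃ δ > 0, ∀ x z, |x - a| < δ → |z - a| < δ → x < a → a < z →
      Lin2 c (V c a) N τ (fun s => ddd c (V c z s) (V c x s) (V c a s))
        (fun s => (V c z s - V c x s) / (z - x)) (fun s => (V c a s - V c x s) / (a - x))
        (fun s => dd c (V c z s) (V c a s))
        (fun s => ((V c z s - V c a s) / (z - a) - (V c a s - V c x s) / (a - x)) / (z - x))
        (fun s => ((M c z s - M c a s) / (z - a) - (M c a s - M c x s) / (a - x)) / (z - x)) := by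
  obtain ⟨η, hη, hu⟩ := dd_unif c hτ
  obtain ⟨η', hη', hu'⟩ := ddd_unif c hτ
  obtain ⟨δ, hδ, hr⟩ := near_range hc ha ha2 hN hV (lt_min hη hη')
  refine ⟨δ, hδ, fun x z hx hz hxa haz => ?_⟩
  obtain ⟨hx0, hx2, hxr⟩ := hr x hx
  obtain ⟨hz0, hz2, hzr⟩ := hr z hz
  obtain ⟨-, -, har⟩ := hr a (by rw [sub_self, abs_zero]; exact hδ)
  have h1 : z - x ≠ 0 := by linarith
  have h2 : z - a ≠ 0 := by linarith
  have h3 : a - x ≠ 0 := by linarith
  refine ⟨fun s hs => ?_, fun s hs => ?_, ?_, ?_, fun s hs => ?_, fun s hs => ?_⟩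
  · have := ((hasDerivAt_quot (x := a) (z := z) hc hs.1.ne').fun_sub
      (hasDerivAt_quot (x := x) (z := a) hc hs.1.ne')).div_const (z - x)
    refine this.congr_deriv ?_
    ring
  · have e1 := (hxr s ⟨hs.1.le, hs.2⟩).1
    have e2 := (hzr s ⟨hs.1.le, hs.2⟩).1
    have e3 := (har s ⟨hs.1.le, hs.2⟩).1
    have := ((hasDerivAt_quotM (x := a) (z := z) hc e3 e2).fun_sub
      (hasDerivAt_quotM (x := x) (z := a) hc e1 e3)).div_const (z - x)
    refine this.congr_deriv ?_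
    have e4 := dd_sub c (V c z s) (V c x s) (V c a s)
    have e5 : dd c (V c a s) (V c x s) = dd c (V c z s) (V c a s)
        - ddd c (V c z s) (V c x s) (V c a s) * (V c z s - V c x s) := by
      rw [dd_comm c (V c a s)]; linarith
    rw [e5]
    field_simp
    ring
  · have := (tendsto_quot (x := a) (z := z) hc h2).sub (tendsto_quot (x := x) (z := a) hc h3)
    have h4 := this.div_const (z - x)
    simpa using h4
  · have := (tendsto_quotM (x := a) (z := z) hc).sub (tendsto_quotM (x := x) (z := a) hc)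
    have h4 := this.div_const (z - x)
    simpa using h4
  · have e2 := hzr s ⟨hs.1.le, hs.2⟩
    have e3 := har s ⟨hs.1.le, hs.2⟩
    exact hu _ _ _ (abs_le_two e2.1) (abs_le_two e3.1) (abs_le_two e3.1)
      (e2.2.trans_le (min_le_left _ _)) (e3.2.trans_le (min_le_left _ _))
  · have e1 := hxr s ⟨hs.1.le, hs.2⟩
    have e2 := hzr s ⟨hs.1.le, hs.2⟩
    have e3 := har s ⟨hs.1.le, hs.2⟩
    exact hu' _ _ _ _ (abs_le_two e2.1) (abs_le_two e1.1) (abs_le_two e3.1) (abs_le_two e3.1)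
      (e2.2.trans_le (min_le_right _ _)) (e1.2.trans_le (min_le_right _ _))
      (e3.2.trans_le (min_le_right _ _))

/-- near a crossing value all values cross -/
lemma crosses_near {a N : ℝ} (ha : 0 < a) (hN : 0 < N) (hV : V 1 a N < 0) :
    ∃ δ > 0, ∀ x, |x - a| < δ → 0 < x ∧ Crosses x := by
  set E := Real.exp (480 * N) with hE
  have hE0 : 0 < E := Real.exp_pos _
  refine ⟨min a (-V 1 a N / E), lt_min ha (div_pos (by linarith) hE0), fun x hx => ?_⟩
  rw [lt_min_iff, lt_div_iff₀ hE0] at hx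
  obtain ⟨h1, h2⟩ := hx
  have h3 := V_lip (a := x) (a' := a) one_mem (right_mem_Icc.2 hN.le)
  rw [abs_lt] at h1
  have hx0 : 0 < x := by linarith [h1.1]
  have h4 : V 1 x N < 0 := by
    have := (abs_le.1 h3).2
    linarith
  refine ⟨hx0, ?_⟩
  have h5 : (0:ℝ) ∈ Icc (V 1 x N) (V 1 x 0) := ⟨h4.le, by rw [V_zero one_mem]; exact hx0.le⟩
  obtain ⟨t, ht, ht0⟩ := intermediate_value_Icc' hN.le (V_cont one_mem x).continuousOn h5
  refine ⟨t, ?_, ht0⟩
  rcases eq_or_lt_of_le ht.1 with h | h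
  · rw [← h, V_zero one_mem] at ht0
    exact absurd ht0 hx0.ne'
  · exact h

/-- S3 (c), type `L` -/
theorem loc_L {a N τ : ℝ} (ha : 0 < a) (ha2 : a < 2) (hτ : 0 < τ) (hcr : Crosses a) (hTN : T a < N)
    (hV : -1/2 < V 1 a N) (h : ∀ G u μ, Lin 1 (V 1 a) N τ G u μ → u (T a) < 0) : LocL a := by
  have hN : 0 < N := (T_pos hcr).trans hTN
  obtain ⟨δ, hδ, hl⟩ := near_lin one_mem ha ha2 hN hV hτ
  obtain ⟨δ', hδ', hc'⟩ := crosses_near ha hN (V_neg_of_gt ha hcr hTN)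
  refine ⟨hcr, min δ δ', lt_min hδ hδ', fun x hx => ?_⟩
  have h1 : |x - a| < min δ δ' := by
    rw [abs_lt]; constructor <;> linarith [hx.1, hx.2, lt_min hδ hδ']
  have h2 := h _ _ _ (hl x a (h1.trans_le (min_le_left _ _)) (by rw [sub_self, abs_zero]; exact hδ)
    hx.2.ne)
  obtain ⟨hx0, hxc⟩ := hc' x (h1.trans_le (min_le_right _ _))
  rw [V_T hcr, zero_sub, div_neg_iff] at h2
  rw [lt_T_iff hx0 hxc (T_pos hcr).le]
  rcases h2 with h2 | h2
  · linarith [h2.2, hx.2]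
  · linarith [h2.1]

/-- S3 (c), type `R` -/
theorem loc_R {a N τ : ℝ} (ha : 0 < a) (ha2 : a < 2) (hτ : 0 < τ) (hcr : Crosses a) (hTN : T a < N)
    (hV : -1/2 < V 1 a N) (h : ∀ G u μ, Lin 1 (V 1 a) N τ G u μ → 0 < u (T a)) : LocR a := by
  have hN : 0 < N := (T_pos hcr).trans hTN
  obtain ⟨δ, hδ, hl⟩ := near_lin one_mem ha ha2 hN hV hτ
  obtain ⟨δ', hδ', hc'⟩ := crosses_near ha hN (V_neg_of_gt ha hcr hTN)
  refine ⟨hcr, min δ δ', lt_min hδ hδ', fun x hx => ?_⟩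
  have h1 : |x - a| < min δ δ' := by
    rw [abs_lt]; constructor <;> linarith [hx.1, hx.2, lt_min hδ hδ']
  have h2 := h _ _ _ (hl a x (by rw [sub_self, abs_zero]; exact hδ) (h1.trans_le (min_le_left _ _))
    hx.1.ne)
  obtain ⟨hx0, hxc⟩ := hc' x (h1.trans_le (min_le_right _ _))
  rw [V_T hcr, sub_zero, div_pos_iff] at h2
  rw [lt_T_iff hx0 hxc (T_pos hcr).le]
  rcases h2 with h2 | h2
  · exact h2.1
  · linarith [h2.2, hx.1]

/-- S3 (c), the convexity test -/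
theorem loc_W {a N τ : ℝ} (ha : 0 < a) (ha2 : a < 2) (hτ : 0 < τ) (hcr : Crosses a) (hTN : T a < N)
    (hV : -1/2 < V 1 a N)
    (h : ∀ g u₁ u₂ G u μ G₁ μ₁ G₂ μ₂, Lin 1 (V 1 a) N τ G₁ u₁ μ₁ → Lin 1 (V 1 a) N τ G₂ u₂ μ₂ →
      Lin2 1 (V 1 a) N τ g u₁ u₂ G u μ → 0 < u (T a)) : Crosses a ∧ LocQ a := by
  have hN : 0 < N := (T_pos hcr).trans hTN
  obtain ⟨δ, hδ, hl⟩ := near_lin one_mem ha ha2 hN hV hτ
  obtain ⟨δ₂, hδ₂, hl₂⟩ := near_lin2 one_mem ha ha2 hN hV hτ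
  obtain ⟨δ', hδ', hc'⟩ := crosses_near ha hN (V_neg_of_gt ha hcr hTN)
  set D := min (min δ δ₂) δ' with hD
  have hD0 : 0 < D := lt_min (lt_min hδ hδ₂) hδ'
  refine ⟨hcr, D, hD0, fun x hx z hz => ?_⟩
  have hx1 : |x - a| < D := by
    rw [abs_lt]; constructor <;> linarith [hx.1, hx.2]
  have hz1 : |z - a| < D := by
    rw [abs_lt]; constructor <;> linarith [hz.1, hz.2]
  have hDδ : D ≤ δ := (min_le_left _ _).trans (min_le_left _ _)
  have hDδ₂ : D ≤ δ₂ := (min_le_left _ _).trans (min_le_right _ _)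
  have hDδ' : D ≤ δ' := min_le_right _ _
  have haa : |a - a| < δ := by rw [sub_self, abs_zero]; exact hδ
  have e1 := hl x z (hx1.trans_le hDδ) (hz1.trans_le hDδ) (by linarith [hx.2, hz.1] : x < z).ne
  have e2 := hl x a (hx1.trans_le hDδ) haa hx.2.ne
  have e3 := hl₂ x z (hx1.trans_le hDδ₂) (hz1.trans_le hDδ₂) hx.2 hz.1
  have h2 := h _ _ _ _ _ _ _ _ _ _ e1 e2 e3
  obtain ⟨hx0, hxc⟩ := hc' x (hx1.trans_le hDδ')
  obtain ⟨hz0, hzc⟩ := hc' z (hz1.trans_le hDδ')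
  have p1 : 0 < z - x := by linarith [hx.2, hz.1]
  have p2 : 0 < z - a := by linarith [hz.1]
  have p3 : 0 < a - x := by linarith [hx.2]
  have h3 := (div_pos_iff_of_pos_right p1).1 h2
  rw [V_T hcr, sub_zero, zero_sub] at h3
  rw [lt_max_iff, lt_T_iff hx0 hxc (T_pos hcr).le, lt_T_iff hz0 hzc (T_pos hcr).le]
  by_contra hcon
  push Not at hcon
  have q1 : V 1 z (T a) / (z - a) ≤ 0 := div_nonpos_of_nonpos_of_nonneg hcon.2 p2.le
  have q2 : 0 ≤ -V 1 x (T a) / (a - x) := div_nonneg (by linarith [hcon.1]) p3.le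
  linarith

/-- S3 (d): scaling -/
theorem scaling {α b N : ℝ} (hα : 0 < α) (hα1 : α ≤ 1) (hb : 0 < b) (hb2 : b ≤ 2) (hN : 0 < N)
    (hV : -1/2 ≤ V (α ^ 3) b N) : ∀ t ∈ Icc 0 N,
      V 1 (α * b) (t / (α * √α)) = α * V (α ^ 3) b t ∧
      M 1 (α * b) (t / (α * √α)) = M (α ^ 3) b t / √α := by
  have hc : α ^ 3 ∈ Icc (0:ℝ) 1 := ⟨by positivity, pow_le_one₀ hα.le hα1⟩
  have hs0 : 0 < √α := Real.sqrt_pos.2 hα
  have hs2 : √α ^ 2 = α := Real.sq_sqrt hα.le
  set k := α * √α with hk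
  have hk0 : 0 < k := by positivity
  have hk2 : k ^ 2 = α ^ 3 := by rw [hk, mul_pow, hs2]; ring
  have hrange : ∀ t ∈ Icc 0 N, V (α ^ 3) b t ∈ Icc (-1/2:ℝ) 2 := by
    intro t ht
    have h1 := (V_strictAntiOn hc hb).antitoneOn (mem_Ici.2 ht.1) (mem_Ici.2 hN.le) ht.2
    exact ⟨by linarith, (V_le hc hb ht.1).trans hb2⟩
  -- the scaled solution
  have hrad : RadOn 1 (α * b) (N / k) (fun s => α * V (α ^ 3) b (k * s))
      (fun s => M (α ^ 3) b (k * s) / √α) := by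
    refine ⟨fun s hs => ?_, ?_, ?_⟩
    · have hks : k * s ∈ Icc 0 N := by
        refine ⟨by have := hs.1; positivity, ?_⟩
        have := hs.2
        rw [le_div_iff₀ hk0] at this
        linarith
      have hks0 : k * s ≠ 0 := by have := hs.1; positivity
      have hin : HasDerivAt (fun s => k * s) k s := by
        simpa using (hasDerivAt_id' s).const_mul k
      have h1 : HasDerivAt (fun s => α * V (α ^ 3) b (k * s))
          (α * (M (α ^ 3) b (k * s) / (k * s) ^ 2 * k)) s :=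
        ((solAt_VM hc b hks0).1.comp s hin).const_mul α
      have h2 : HasDerivAt (fun s => M (α ^ 3) b (k * s) / √α)
          (-((k * s) ^ 2 * F (α ^ 3) (V (α ^ 3) b (k * s))) * k / √α) s :=
        ((solAt_VM hc b hks0).2.comp s hin).div_const _
      have hr := hrange _ hks
      have hr' : α * V (α ^ 3) b (k * s) ∈ Icc (-1/2:ℝ) 2 := by
        constructor
        · nlinarith [hr.1, hr.2]
        · nlinarith [hr.1, hr.2]
      constructor
      · refine h1.congr_deriv ?_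
        have hs' := hs.1.ne'
        have e1 : (k * s) ^ 2 = k ^ 2 * s ^ 2 := by ring
        rw [e1, div_div]
        rw [div_mul_eq_mul_div, ← mul_div_assoc, div_eq_div_iff (by positivity) (by positivity)]
        have e2 : k = α * √α := hk
        calc α * (M (α ^ 3) b (k * s) * k) * (√α * s ^ 2)
            = M (α ^ 3) b (k * s) * (k * (α * √α)) * s ^ 2 := by ring
          _ = M (α ^ 3) b (k * s) * (k ^ 2 * s ^ 2) := by rw [← e2]; ring
      · refine h2.congr_deriv ?_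
        rw [F_of_mem hr, F_of_mem hr']
        have e2 : k / √α = α := by rw [hk]; field_simp
        have e3 : -((k * s) ^ 2 * f (α ^ 3) (V (α ^ 3) b (k * s))) * k / √α
            = -(k ^ 2 * s ^ 2 * f (α ^ 3) (V (α ^ 3) b (k * s))) * (k / √α) := by ring
        rw [e3, e2, hk2]
        unfold f
        ring
    · have h : Continuous (fun s => α * V (α ^ 3) b (k * s)) :=
        continuous_const.mul ((V_cont hc b).comp (continuous_const.mul continuous_id))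
      have h1 := h.tendsto 0
      simp only [mul_zero, V_zero hc] at h1
      exact h1.mono_left nhdsWithin_le_nhds
    · have h : Continuous (fun s => M (α ^ 3) b (k * s) / √α) :=
        ((M_cont hc b).comp (continuous_const.mul continuous_id)).div_const _
      have h1 := h.tendsto 0
      simp only [mul_zero, M_zero hc, zero_div] at h1
      exact h1.mono_left nhdsWithin_le_nhds
  intro t ht
  rcases eq_or_lt_of_le ht.1 with h0 | h0
  · rw [← h0, zero_div, V_zero one_mem, V_zero hc, M_zero one_mem, M_zero hc, zero_div]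
    exact ⟨rfl, rfl⟩
  · have h1 : t / k ∈ Ioc 0 (N / k) := ⟨by positivity, by gcongr; exact ht.2⟩
    have h2 := hrad.unique one_mem h1
    have h3 : k * (t / k) = t := by field_simp
    simp only [h3] at h2
    exact ⟨h2.1.symm, h2.2.symm⟩

/-- S3 (d): type `L` in normalised variables -/
theorem locL_norm {α N t₀ τ : ℝ} (hα : 0 < α) (hα1 : α ≤ 1) (ht₀ : 0 < t₀) (htN : t₀ < N)
    (hτ : 0 < τ) (hz : V (α ^ 3) 1 t₀ = 0) (hV : -1/2 < V (α ^ 3) 1 N)
    (h : ∀ G u μ, Lin (α ^ 3) (V (α ^ 3) 1) N τ G u μ → u t₀ < 0) : LocL α := by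
  have hc : α ^ 3 ∈ Icc (0:ℝ) 1 := ⟨by positivity, pow_le_one₀ hα.le hα1⟩
  have hN : 0 < N := ht₀.trans htN
  have hs0 : 0 < √α := Real.sqrt_pos.2 hα
  have hk0 : 0 < α * √α := by positivity
  have hsc := scaling hα hα1 one_pos (by norm_num) hN hV.le
  rw [mul_one] at hsc
  have hVN : V (α ^ 3) 1 N < 0 := by
    rw [← hz]
    exact V_strictAntiOn hc one_pos (mem_Ici.2 ht₀.le) (mem_Ici.2 hN.le) htN
  have hTz : V 1 α (t₀ / (α * √α)) = 0 := by rw [(hsc t₀ ⟨ht₀.le, htN.le⟩).1, hz, mul_zero]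
  have hT : T α = t₀ / (α * √α) := T_unique hα (by positivity) hTz
  have hcr : Crosses α := ⟨t₀ / (α * √α), by positivity, hTz⟩
  have hV1N : V 1 α (N / (α * √α)) < 0 := by
    rw [(hsc N ⟨hN.le, le_rfl⟩).1]
    exact mul_neg_of_pos_of_neg hα hVN
  obtain ⟨δ, hδ, hl⟩ := near_lin hc one_pos (by norm_num) hN hV hτ
  obtain ⟨δ₁, hδ₁, hr⟩ := near_range hc one_pos (by norm_num) hN hV one_pos
  obtain ⟨δ', hδ', hc'⟩ := crosses_near hα (by positivity : 0 < N / (α * √α)) hV1N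
  set D := min (min δ δ₁) (δ' / α) with hD
  have hD0 : 0 < D := lt_min (lt_min hδ hδ₁) (by positivity)
  refine ⟨hcr, α * D, by positivity, fun x hx => ?_⟩
  set b := x / α with hb
  have hxb : x = α * b := by rw [hb]; field_simp
  have hb1 : b < 1 := by rw [hb, div_lt_one hα]; exact hx.2
  have hbD : 1 - D < b := by
    rw [hb, lt_div_iff₀ hα]
    linarith [hx.1]
  have hbabs : |b - 1| < D := by rw [abs_lt]; constructor <;> linarith
  obtain ⟨hb0, hb2, hbr⟩ := hr b (hbabs.trans_le ((min_le_left _ _).trans (min_le_right _ _)))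
  have h1 := h _ _ _ (hl b 1 (hbabs.trans_le ((min_le_left _ _).trans (min_le_left _ _)))
    (by rw [sub_self, abs_zero]; exact hδ) hb1.ne)
  simp only [hz, zero_sub] at h1
  have h2 : 0 < V (α ^ 3) b t₀ := by
    rw [div_neg_iff] at h1
    rcases h1 with h1 | h1
    · linarith [h1.2]
    · linarith [h1.1]
  have hsb := scaling hα hα1 hb0 hb2.le hN (hbr N ⟨hN.le, le_rfl⟩).1.1
  have hxa : |x - α| < δ' := by
    have e1 : x - α = α * (b - 1) := by rw [hxb]; ring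
    rw [e1, abs_mul, abs_of_pos hα]
    have e2 : |b - 1| < δ' / α := hbabs.trans_le (min_le_right _ _)
    rw [lt_div_iff₀ hα] at e2
    linarith
  obtain ⟨hx0, hxc⟩ := hc' x hxa
  rw [hT, lt_T_iff hx0 hxc (by positivity), hxb, (hsb t₀ ⟨ht₀.le, htN.le⟩).1]
  positivity

/-- S3 (e): from local to global strict monotonicity -/
theorem strictMonoOn_of_local {φ : ℝ → ℝ} {l r : ℝ}
    (h : ∀ x ∈ Icc l r, ∃ δ > 0, (∀ y ∈ Icc l r, x - δ < y → y < x → φ y < φ x) ∧
      (∀ y ∈ Icc l r, x < y → y < x + δ → φ x < φ y)) : StrictMonoOn φ (Icc l r) := by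
  intro x hx y hy hxy
  -- the set of good `t`
  set S := {t ∈ Icc x y | ∀ s ∈ Ioc x t, φ x < φ s} with hS
  have hxS : x ∈ S := ⟨left_mem_Icc.2 hxy.le, fun s hs => absurd hs.1 (not_lt.2 hs.2)⟩
  have hbdd : BddAbove S := ⟨y, fun t ht => ht.1.2⟩
  set t := sSup S with ht
  have htx : x ≤ t := le_csSup hbdd hxS
  have hty : t ≤ y := csSup_le ⟨x, hxS⟩ fun s hs => hs.1.2
  have htmem : t ∈ Icc l r := ⟨hx.1.trans htx, hty.trans hy.2⟩
  have hbelow : ∀ s ∈ Ioo x t, φ x < φ s := by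
    intro s hs
    obtain ⟨w, hw, hsw⟩ := exists_lt_of_lt_csSup ⟨x, hxS⟩ hs.2
    exact hw.2 s ⟨hs.1, hsw.le⟩
  obtain ⟨δ, hδ, h1, h2⟩ := h t htmem
  have htS : t = x ∨ φ x < φ t := by
    rcases eq_or_lt_of_le htx with he | hlt
    · exact Or.inl he.symm
    · right
      obtain ⟨s, hs1, hs2⟩ := exists_between (max_lt hlt (by linarith : t - δ < t))
      have hs3 : s ∈ Icc l r := ⟨hx.1.trans ((le_max_left _ _).trans hs1.le), hs2.le.trans htmem.2⟩
      exact (hbelow s ⟨(le_max_left _ _).trans_lt hs1, hs2⟩).trans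
        (h1 s hs3 ((le_max_right _ _).trans_lt hs1) hs2)
  rcases eq_or_lt_of_le hty with he | hlt
  · rcases htS with h3 | h3
    · exact absurd hxy (by rw [← he, h3]; exact lt_irrefl _)
    · rwa [he] at h3
  · exfalso
    obtain ⟨w, hw1, hw2⟩ := exists_between (lt_min hlt (by linarith : t < t + δ))
    have hwS : w ∈ S := by
      refine ⟨⟨htx.trans hw1.le, hw2.le.trans (min_le_left _ _)⟩, fun s hs => ?_⟩
      rcases lt_trichotomy s t with h4 | h4 | h4
      · exact hbelow s ⟨hs.1, h4⟩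
      · rcases htS with h5 | h5
        · exact absurd hs.1 (by rw [h4, h5]; exact lt_irrefl _)
        · rw [h4]; exact h5
      · have hs3 : s ∈ Icc l r :=
          ⟨htmem.1.trans h4.le, (hs.2.trans (hw2.le.trans (min_le_left _ _))).trans hy.2⟩
        have h6 := h2 s hs3 h4 (hs.2.trans_lt (hw2.trans_le (min_le_right _ _)))
        rcases htS with h5 | h5
        · rwa [h5] at h6
        · exact h5.trans h6
    exact absurd (le_csSup hbdd hwS) (not_le.2 hw1)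

end LinNi.H93
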