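import Pool.Agent.Lib.MP_0170ef_an_helper93.LemmaA

/-!
Barrier lemmas and existence of solutions with data at a positive time.
-/

set_option autoImplicit false

open Set Filter Topology
open scoped NNReal

namespace LinNi.H93

open LinNi

/-- a nonstrict barrier argument -/
lemma nonneg_of_barrier {φ φ' : ℝ → ℝ} {p q : ℝ}
    (hφ : ∀ t ∈ Icc p q, HasDerivAt φ (φ' t) t) (hp : 0 ≤ φ p)
    (hb : ∀ t ∈ Ico p q, (∀ s ∈ Icc p t, 0 ≤ φ s) → φ t = 0 → 0 < φ' t) :
    ∀ t ∈ Icc p q, 0 ≤ φ t := by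
  by_contra hcon
  push Not at hcon
  obtain ⟨t₁, ht₁, hφ₁⟩ := hcon
  set S := {t ∈ Icc p t₁ | ∀ s ∈ Icc p t, 0 ≤ φ s} with hS
  have hpS : p ∈ S := ⟨left_mem_Icc.2 ht₁.1, fun s hs => by rw [le_antisymm hs.2 hs.1]; exact hp⟩
  have hbdd : BddAbove S := ⟨t₁, fun t ht => ht.1.2⟩
  set t := sSup S with ht
  have hpt : p ≤ t := le_csSup hbdd hpS
  have htt₁ : t ≤ t₁ := csSup_le ⟨p, hpS⟩ fun s hs => hs.1.2
  have htq : t ∈ Icc p q := ⟨hpt, htt₁.trans ht₁.2⟩
  have hbef : ∀ s ∈ Ico p t, 0 ≤ φ s := by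
    intro s hs
    obtain ⟨w, hw, hsw⟩ := exists_lt_of_lt_csSup ⟨p, hpS⟩ hs.2
    exact hw.2 s ⟨hs.1, hsw.le⟩
  have hφt : 0 ≤ φ t := by
    rcases eq_or_lt_of_le hpt with h | h
    · rw [← h]; exact hp
    · have h1 : Tendsto φ (𝓝[<] t) (𝓝 (φ t)) :=
        (hφ t htq).continuousAt.tendsto.mono_left nhdsWithin_le_nhds
      refine ge_of_tendsto h1 ?_
      filter_upwards [Ioo_mem_nhdsLT h] with s hs using hbef s ⟨hs.1.le, hs.2⟩
  have hall : ∀ s ∈ Icc p t, 0 ≤ φ s := by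
    intro s hs
    rcases eq_or_lt_of_le hs.2 with h | h
    · rw [h]; exact hφt
    · exact hbef s ⟨hs.1, h⟩
  have hlt : t < t₁ := by
    rcases eq_or_lt_of_le htt₁ with h | h
    · rw [h] at hφt; linarith
    · exact h
  have hev : ∀ᶠ s in 𝓝[>] t, 0 ≤ φ s := by
    rcases eq_or_lt_of_le hφt with h | h
    · have hd := hb t ⟨hpt, hlt.trans_le ht₁.2⟩ hall h.symm
      have hsl := (hasDerivAt_iff_tendsto_slope.1 (hφ t htq)).mono_left
        (nhdsWithin_mono t (fun s (hs : t < s) => (ne_of_gt hs : s ≠ t)) : 𝓝[>] t ≤ 𝓝[≠] t)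
      filter_upwards [hsl.eventually (lt_mem_nhds hd), self_mem_nhdsWithin] with s hs1 hs2
      rw [slope_def_field, ← h, sub_zero] at hs1
      have hs3 : 0 < s - t := sub_pos.2 hs2
      exact ((div_pos_iff_of_pos_right hs3).1 hs1).le
    · have h1 : Tendsto φ (𝓝[>] t) (𝓝 (φ t)) :=
        (hφ t htq).continuousAt.tendsto.mono_left nhdsWithin_le_nhds
      filter_upwards [h1.eventually (lt_mem_nhds h)] with s hs using hs.le
  rw [eventually_nhdsWithin_iff, Metric.eventually_nhds_iff] at hev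
  obtain ⟨δ, hδ, hδ'⟩ := hev
  obtain ⟨w, hw1, hw2⟩ := exists_between (lt_min hlt (by linarith : t < t + δ))
  have hwS : w ∈ S := by
    refine ⟨⟨hpt.trans hw1.le, hw2.le.trans (min_le_left _ _)⟩, fun s hs => ?_⟩
    rcases le_or_gt s t with h | h
    · exact hall s ⟨hs.1, h⟩
    · refine hδ' ?_ h
      rw [Real.dist_eq, abs_of_pos (by linarith)]
      have := hw2.trans_le (min_le_right _ _)
      linarith [hs.2]
  exact absurd (le_csSup hbdd hwS) (not_le.2 hw1)

/-- positivity from `κ y + ν / t ≥ 0` -/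
lemma pos_of_scaled {κ p q : ℝ} {y ν : ℝ → ℝ} (hp : 0 < p)
    (hy : ∀ t ∈ Icc p q, HasDerivAt y (ν t / t ^ 2) t) (hy0 : 0 < y p)
    (h : ∀ t ∈ Ioo p q, 0 ≤ κ * y t + ν t / t) : ∀ t ∈ Icc p q, 0 < y t := by
  intro t ht
  have ht0 : 0 < t := hp.trans_le ht.1
  have hd : ∀ s ∈ Icc p t, HasDerivAt (fun s => s ^ κ * y s) (s ^ κ / s * (κ * y s + ν s / s)) s := by
    intro s hs
    have hs0 : 0 < s := hp.trans_le hs.1
    have h1 := (Real.hasDerivAt_rpow_const (x := s) (p := κ) (Or.inl hs0.ne')).fun_mul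
      (hy s ⟨hs.1, hs.2.trans ht.2⟩)
    refine h1.congr_deriv ?_
    rw [Real.rpow_sub_one hs0.ne']
    field_simp
  have hmono : MonotoneOn (fun s => s ^ κ * y s) (Icc p t) := by
    apply monotoneOn_of_deriv_nonneg (convex_Icc _ _)
    · intro s hs
      exact (hd s hs).continuousAt.continuousWithinAt
    · intro s hs
      rw [interior_Icc] at hs
      exact (hd s ⟨hs.1.le, hs.2.le⟩).differentiableAt.differentiableWithinAt
    · intro s hs
      rw [interior_Icc] at hs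
      rw [(hd s ⟨hs.1.le, hs.2.le⟩).deriv]
      have hs0 : 0 < s := hp.trans hs.1
      have := h s ⟨hs.1, hs.2.trans_le ht.2⟩
      have h2 : 0 < s ^ κ := Real.rpow_pos_of_pos hs0 _
      positivity
  have h1 := hmono (left_mem_Icc.2 ht.1) (right_mem_Icc.2 ht.1) ht.1
  simp only at h1
  have h2 : 0 < p ^ κ * y p := mul_pos (Real.rpow_pos_of_pos hp _) hy0
  exact (mul_pos_iff_of_pos_left (Real.rpow_pos_of_pos ht0 _)).1 (h2.trans_le h1)

/-- lower barrier: `κ y + ν / t` stays nonnegative -/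
lemma low_barrier {κ p q : ℝ} {y ν K : ℝ → ℝ} (hp : 0 < p)
    (hy : ∀ t ∈ Icc p q, HasDerivAt y (ν t / t ^ 2) t)
    (hν : ∀ t ∈ Icc p q, HasDerivAt ν (-(t ^ 2 * (K t * y t))) t)
    (hK : ∀ t ∈ Ico p q, 0 < y t → t ^ 2 * K t < κ * (1 - κ))
    (hy0 : 0 < y p) (h0 : 0 ≤ κ * y p + ν p / p) :
    ∀ t ∈ Icc p q, 0 < y t ∧ 0 ≤ κ * y t + ν t / t := by
  have hd : ∀ t ∈ Icc p q, HasDerivAt (fun t => κ * y t + ν t / t)
      (κ * (ν t / t ^ 2) + (-(t ^ 2 * (K t * y t)) * t - ν t * 1) / t ^ 2) t := by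
    intro t ht
    have ht0 : 0 < t := hp.trans_le ht.1
    exact ((hy t ht).const_mul κ).fun_add ((hν t ht).fun_div (hasDerivAt_id' t) ht0.ne')
  have hnn : ∀ t ∈ Icc p q, 0 ≤ κ * y t + ν t / t := by
    apply nonneg_of_barrier hd h0
    intro t ht hall hzero
    have ht0 : 0 < t := hp.trans_le ht.1
    have hyt : 0 < y t := pos_of_scaled (κ := κ) (q := t) hp
      (fun s hs => hy s ⟨hs.1, hs.2.trans ht.2.le⟩) hy0
      (fun s hs => hall s ⟨hs.1.le, hs.2.le⟩) t ⟨ht.1, le_rfl⟩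
    have hk := hK t ht hyt
    have hν' : ν t = -κ * y t * t := by
      have h1 : ν t / t = -κ * y t := by linarith
      rw [div_eq_iff ht0.ne'] at h1
      exact h1
    have e : κ * (ν t / t ^ 2) + (-(t ^ 2 * (K t * y t)) * t - ν t * 1) / t ^ 2
        = y t / t * (κ * (1 - κ) - t ^ 2 * K t) := by
      rw [hν']
      field_simp
      ring
    rw [e]
    exact mul_pos (by positivity) (by linarith)
  intro t ht
  exact ⟨pos_of_scaled (κ := κ) hp hy hy0 (fun s hs => hnn s ⟨hs.1.le, hs.2.le⟩) t ht, hnn t ht⟩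

/-- upper barrier: `κ y - ν / t` stays nonnegative while `y` is positive -/
lemma up_barrier {κ p q : ℝ} {y ν K : ℝ → ℝ} (hp : 0 < p)
    (hy : ∀ t ∈ Icc p q, HasDerivAt y (ν t / t ^ 2) t)
    (hν : ∀ t ∈ Icc p q, HasDerivAt ν (-(t ^ 2 * (K t * y t))) t)
    (hK : ∀ t ∈ Ico p q, -(κ * (1 + κ)) < t ^ 2 * K t)
    (hypos : ∀ t ∈ Icc p q, 0 < y t) (h0 : 0 ≤ κ * y p - ν p / p) :
    ∀ t ∈ Icc p q, 0 ≤ κ * y t - ν t / t := by
  have hd : ∀ t ∈ Icc p q, HasDerivAt (fun t => κ * y t - ν t / t)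
      (κ * (ν t / t ^ 2) - (-(t ^ 2 * (K t * y t)) * t - ν t * 1) / t ^ 2) t := by
    intro t ht
    have ht0 : 0 < t := hp.trans_le ht.1
    exact ((hy t ht).const_mul κ).fun_sub ((hν t ht).fun_div (hasDerivAt_id' t) ht0.ne')
  apply nonneg_of_barrier hd h0
  intro t ht hall hzero
  have ht0 : 0 < t := hp.trans_le ht.1
  have hyt := hypos t ⟨ht.1, ht.2.le⟩
  have hk := hK t ht
  have hν' : ν t = κ * y t * t := by
    have h1 : ν t / t = κ * y t := by linarith
    rw [div_eq_iff ht0.ne'] at h1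
    exact h1
  have e : κ * (ν t / t ^ 2) - (-(t ^ 2 * (K t * y t)) * t - ν t * 1) / t ^ 2
      = y t / t * (κ * (1 + κ) + t ^ 2 * K t) := by
    rw [hν']
    field_simp
    ring
  rw [e]
  exact mul_pos (by positivity) (by linarith)

/-- solutions of `z'' = -g` with data at time `r` -/
lemma exists_on' {c : ℝ} (hc : c ∈ Icc (0:ℝ) 1) (z₀ p₀ : ℝ) {r N : ℝ} (hN : 1 ≤ N)
    (hr : r ∈ Icc (-N) N) :
    ∃ z p : ℝ → ℝ, z r = z₀ ∧ p r = p₀ ∧ ∀ t ∈ Ioo (-N) N, HasDerivAt z (p t) t ∧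
      HasDerivAt p (-(g c t (z t))) t := by
  have hN0 : 0 ≤ N := by linarith
  let L : ℝ≥0 := ⟨144 * N ^ 2, by positivity⟩
  let A : ℝ≥0 := ⟨144 * N ^ 2 * (2 * N), by positivity⟩
  let K : ℝ≥0 := ⟨480 * (1 + N) * N, by positivity⟩
  have hP : IsPicardLindelof (W c) (tmin := -N) (tmax := N) ⟨r, hr⟩
      ((z₀ - r * p₀, p₀) : ℝ × ℝ) A 0 L K := by
    constructor
    · intro t ht
      apply LipschitzWith.lipschitzOnWith
      refine LipschitzWith.of_dist_le_mul (fun x y => ?_)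
      rw [Prod.dist_eq, Prod.dist_eq]
      simp only [W, Real.dist_eq]
      have ht' : |t| ≤ N := abs_le.2 ht
      have h1 := abs_g_sub_le hc t (x.1 + t * x.2) (y.1 + t * y.2)
      have h3 : |x.1 + t * x.2 - (y.1 + t * y.2)| ≤ (1 + N) * max |x.1 - y.1| |x.2 - y.2| := by
        have : x.1 + t * x.2 - (y.1 + t * y.2) = (x.1 - y.1) + t * (x.2 - y.2) := by ring
        rw [this]
        refine (abs_add_le _ _).trans ?_
        rw [abs_mul]
        have a1 := le_max_left |x.1 - y.1| |x.2 - y.2|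
        have a2 := le_max_right |x.1 - y.1| |x.2 - y.2|
        have a3 : |t| * |x.2 - y.2| ≤ N * max |x.1 - y.1| |x.2 - y.2| := by
          apply mul_le_mul ht' a2 (abs_nonneg _) hN0
        linarith
      have h4 : |g c t (x.1 + t * x.2) - g c t (y.1 + t * y.2)| ≤
          480 * (1 + N) * max |x.1 - y.1| |x.2 - y.2| := by linarith
      have h5 : 0 ≤ |g c t (x.1 + t * x.2) - g c t (y.1 + t * y.2)| := abs_nonneg _
      have eK : (K : ℝ) = 480 * (1 + N) * N := rfl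
      rw [eK]
      apply max_le
      · rw [← mul_sub, abs_mul]
        calc |t| * |g c t (x.1 + t * x.2) - g c t (y.1 + t * y.2)|
            ≤ N * (480 * (1 + N) * max |x.1 - y.1| |x.2 - y.2|) := by gcongr
          _ = 480 * (1 + N) * N * max |x.1 - y.1| |x.2 - y.2| := by ring
      · have h2 : |(-g c t (x.1 + t * x.2)) - (-g c t (y.1 + t * y.2))| =
            |g c t (x.1 + t * x.2) - g c t (y.1 + t * y.2)| := by
          rw [← abs_neg]; congr 1; ring
        rw [h2]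
        refine h4.trans ?_
        have h6 : 0 ≤ max |x.1 - y.1| |x.2 - y.2| := le_max_of_le_left (abs_nonneg _)
        nlinarith
    · intro x _
      apply Continuous.continuousOn
      have h1 : Continuous (fun t => g c t (x.1 + t * x.2)) :=
        continuous_g_left hc (fun t => x.1 + t * x.2) (by fun_prop)
      unfold W
      exact (continuous_id.mul h1).prodMk h1.neg
    · intro t ht x _
      have ht' : |t| ≤ N := abs_le.2 ht
      have h1 := abs_g_le hc t (x.1 + t * x.2)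
      have h2 : |g c t (x.1 + t * x.2)| ≤ 144 * N := by linarith
      have eL : (L : ℝ) = 144 * N ^ 2 := rfl
      rw [eL, Prod.norm_def]
      simp only [W, Real.norm_eq_abs]
      apply max_le
      · rw [abs_mul]
        calc |t| * |g c t (x.1 + t * x.2)| ≤ N * (144 * N) := by gcongr
          _ = 144 * N ^ 2 := by ring
      · rw [abs_neg]
        nlinarith
    · have e1 : (L : ℝ) = 144 * N ^ 2 := rfl
      have e2 : (A : ℝ) = 144 * N ^ 2 * (2 * N) := rfl
      rw [e1, e2]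
      have e3 : max (N - r) (r - -N) ≤ 2 * N := by
        apply max_le <;> linarith [hr.1, hr.2]
      show 144 * N ^ 2 * max (N - r) (r - -N) ≤ 144 * N ^ 2 * (2 * N) - ((0:ℝ≥0) : ℝ)
      rw [NNReal.coe_zero, sub_zero]
      gcongr
  obtain ⟨α, hα0, hα⟩ := hP.exists_eq_forall_mem_Icc_hasDerivWithinAt₀
  refine ⟨fun t => (α t).1 + t * (α t).2, fun t => (α t).2, ?_, ?_, ?_⟩
  · simp only at hα0
    simp [hα0]
  · simp only at hα0
    simp [hα0]
  · intro t ht
    have h1 := (hα t (Ioo_subset_Icc_self ht)).hasDerivAt (Icc_mem_nhds ht.1 ht.2)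
    have h2 : HasDerivAt (fun t => (α t).1) (t * g c t ((α t).1 + t * (α t).2)) t := by
      have := h1.hasFDerivAt.fst.hasDerivAt
      simpa [W] using this
    have h3 : HasDerivAt (fun t => (α t).2) (- g c t ((α t).1 + t * (α t).2)) t := by
      have := h1.hasFDerivAt.snd.hasDerivAt
      simpa [W] using this
    refine ⟨?_, h3⟩
    have h4 := h2.fun_add ((hasDerivAt_id' t).fun_mul h3)
    exact h4.congr_deriv (by ring)

/-- solutions of the radial equation with data at time `1` -/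
lemma exists_sol_one {c : ℝ} (hc : c ∈ Icc (0:ℝ) 1) (v₁ m₁ : ℝ) {N : ℝ} (hN : 1 < N) :
    ∃ v m : ℝ → ℝ, v 1 = v₁ ∧ m 1 = m₁ ∧ ∀ t ∈ Ioo 0 N, SolAt c v m t := by
  obtain ⟨z, p, hz, hp, h⟩ := exists_on' hc v₁ (v₁ + m₁) (r := 1) hN.le
    ⟨by linarith, hN.le⟩
  refine ⟨fun t => z t / t, fun t => t * p t - z t, by simp [hz], by simp only [hz, hp]; ring,
    fun t ht => ?_⟩
  have ht0 : t ≠ 0 := ht.1.ne'
  have h1 := h t ⟨by linarith [ht.1], ht.2⟩
  constructor
  · have := h1.1.fun_div (hasDerivAt_id' t) ht0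
    refine this.congr_deriv ?_
    field_simp
  · have := ((hasDerivAt_id' t).fun_mul h1.2).fun_sub h1.1
    refine this.congr_deriv ?_
    simp only [g]
    ring

end LinNi.H93
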