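import Pool.Agent.Lib.MP_0170ef_an_helper93.Local

/-!
Task S4: type `R` from data at a point where `z = t v` is nonincreasing.
-/

set_option autoImplicit false

open Set Filter Topology

namespace LinNi.H93

open LinNi

/-- a barrier argument: `φ` stays positive -/
lemma pos_of_barrier {φ φ' : ℝ → ℝ} {p q : ℝ}
    (hφ : ∀ t ∈ Icc p q, HasDerivAt φ (φ' t) t) (hp : 0 < φ p)
    (hb : ∀ t ∈ Icc p q, (∀ s ∈ Ico p t, 0 < φ s) → φ t = 0 → 0 < φ' t) :
    ∀ t ∈ Icc p q, 0 < φ t := by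
  by_contra hcon
  push Not at hcon
  obtain ⟨t₁, ht₁, hφ₁⟩ := hcon
  set S := {t ∈ Icc p q | φ t ≤ 0} with hS
  have hcont : ContinuousOn φ (Icc p q) := fun t ht => (hφ t ht).continuousAt.continuousWithinAt
  have hSc : IsClosed S := by
    have := hcont.preimage_isClosed_of_isClosed isClosed_Icc (isClosed_Iic (a := (0:ℝ)))
    exact this
  have hSne : S.Nonempty := ⟨t₁, ht₁, hφ₁⟩
  have hbdd : BddBelow S := ⟨p, fun t ht => ht.1.1⟩
  set t := sInf S with ht
  have htS : t ∈ S := hSc.csInf_mem hSne hbdd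
  have hbef : ∀ s ∈ Ico p t, 0 < φ s := by
    intro s hs
    by_contra h
    push Not at h
    have : s ∈ S := ⟨⟨hs.1, hs.2.le.trans htS.1.2⟩, h⟩
    exact absurd (csInf_le hbdd this) (not_le.2 hs.2)
  have hpt : p < t := by
    rcases eq_or_lt_of_le htS.1.1 with h | h
    · exfalso
      have := htS.2
      rw [← h] at this
      linarith
    · exact h
  have hzero : φ t = 0 := by
    refine le_antisymm htS.2 ?_
    have h1 : Tendsto φ (𝓝[<] t) (𝓝 (φ t)) :=
      (hφ t htS.1).continuousAt.tendsto.mono_left nhdsWithin_le_nhds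
    refine ge_of_tendsto h1 ?_
    filter_upwards [Ioo_mem_nhdsLT hpt] with s hs using (hbef s ⟨hs.1.le, hs.2⟩).le
  have hd := hb t htS.1 hbef hzero
  -- the slope from the left is nonpositive
  have hsl := (hasDerivAt_iff_tendsto_slope.1 (hφ t htS.1)).mono_left
    (nhdsWithin_mono t (fun s (hs : s < t) => (ne_of_lt hs : s ≠ t)) : 𝓝[<] t ≤ 𝓝[≠] t)
  have h2 : φ' t ≤ 0 := by
    refine le_of_tendsto hsl ?_
    filter_upwards [Ioo_mem_nhdsLT hpt] with s hs
    rw [slope_def_field, hzero, sub_zero]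
    exact div_nonpos_of_nonneg_of_nonpos (hbef s ⟨hs.1.le, hs.2⟩).le (by linarith [hs.2])
  linarith

lemma Lin.mono_tau {c : ℝ} {v : ℝ → ℝ} {N τ τ' : ℝ} {G u μ : ℝ → ℝ} (h : Lin c v N τ' G u μ)
    (hτ : τ' ≤ τ) : Lin c v N τ G u μ :=
  ⟨h.du, h.dμ, h.u0, h.μ0, fun s hs => (h.hG s hs).trans hτ⟩

/-- `z' = v + m / t` -/
lemma hasDerivAt_z {c a t : ℝ} (hc : c ∈ Icc (0:ℝ) 1) (ht : t ≠ 0) :
    HasDerivAt (fun t => t * V c a t) (V c a t + M c a t / t) t := by
  have := (hasDerivAt_id' t).fun_mul (solAt_VM hc a ht).1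
  refine this.congr_deriv ?_
  field_simp

lemma hasDerivAt_z' {c a t : ℝ} (hc : c ∈ Icc (0:ℝ) 1) (ht : t ≠ 0) :
    HasDerivAt (fun t => V c a t + M c a t / t) (-(t * F c (V c a t))) t := by
  have := (solAt_VM hc a ht).1.fun_add ((solAt_VM hc a ht).2.fun_div (hasDerivAt_id' t) ht)
  refine this.congr_deriv ?_
  field_simp
  ring

lemma z'_antitone {c a : ℝ} (hc : c ∈ Icc (0:ℝ) 1) :
    AntitoneOn (fun t => V c a t + M c a t / t) (Ioi 0) := by
  apply antitoneOn_of_deriv_nonpos (convex_Ioi _)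
  · intro s hs
    exact (hasDerivAt_z' hc (ne_of_gt hs)).continuousAt.continuousWithinAt
  · intro s hs
    rw [interior_Ioi] at hs
    exact (hasDerivAt_z' hc (ne_of_gt hs)).differentiableAt.differentiableWithinAt
  · intro s hs
    rw [interior_Ioi] at hs
    rw [(hasDerivAt_z' hc (ne_of_gt hs)).deriv]
    have h1 := F_nonneg hc (V c a s)
    have h2 : (0:ℝ) < s := hs
    have : 0 ≤ s * F c (V c a s) := by positivity
    linarith

/-- after a time with `z' ≤ 0` the function `z` is nonincreasing -/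
lemma z_antitone {c a t₁ : ℝ} (hc : c ∈ Icc (0:ℝ) 1) (ht₁ : 0 < t₁)
    (hz : V c a t₁ + M c a t₁ / t₁ ≤ 0) : AntitoneOn (fun t => t * V c a t) (Ici t₁) := by
  apply antitoneOn_of_deriv_nonpos (convex_Ici _)
  · intro s hs
    have h : (0:ℝ) < s := ht₁.trans_le hs
    exact (hasDerivAt_z hc h.ne').continuousAt.continuousWithinAt
  · intro s hs
    rw [interior_Ici] at hs
    have h : (0:ℝ) < s := ht₁.trans hs
    exact (hasDerivAt_z hc h.ne').differentiableAt.differentiableWithinAt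
  · intro s hs
    rw [interior_Ici] at hs
    have h : (0:ℝ) < s := ht₁.trans hs
    have hs' : t₁ < s := hs
    rw [(hasDerivAt_z hc h.ne').deriv]
    exact (z'_antitone hc (mem_Ioi.2 ht₁) (mem_Ioi.2 h) hs'.le).trans hz

/-- if `v > 0` and `z' ≤ 0` at some time then `v` vanishes later -/
lemma crosses_of_z' {a t₁ : ℝ} (ht₁ : 0 < t₁) (hV1 : 0 < V 1 a t₁)
    (hz : V 1 a t₁ + M 1 a t₁ / t₁ ≤ 0) : Crosses a := by
  by_contra hcon
  have hne : ∀ t, 0 < t → V 1 a t ≠ 0 := fun t ht h => hcon ⟨t, ht, h⟩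
  have hpos : ∀ t, t₁ ≤ t → 0 < V 1 a t := by
    intro t ht
    by_contra h
    push Not at h
    obtain ⟨s, hs, hs0⟩ := intermediate_value_Icc' ht (V_cont one_mem a).continuousOn
      (⟨h, hV1.le⟩ : (0:ℝ) ∈ Icc (V 1 a t) (V 1 a t₁))
    exact hne s (ht₁.trans_le hs.1) hs0
  -- strictly negative slope at `t₁ + 1`
  have hneg : V 1 a (t₁ + 1) + M 1 a (t₁ + 1) / (t₁ + 1) < 0 := by
    have hst : StrictAntiOn (fun t => V 1 a t + M 1 a t / t) (Icc t₁ (t₁ + 1)) := by
      apply strictAntiOn_of_deriv_neg (convex_Icc _ _)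
      · intro s hs
        exact (hasDerivAt_z' one_mem (ht₁.trans_le hs.1).ne').continuousAt.continuousWithinAt
      · intro s hs
        rw [interior_Icc] at hs
        have h0 : 0 < s := ht₁.trans hs.1
        rw [(hasDerivAt_z' one_mem h0.ne').deriv]
        have h1 := F_pos one_mem (hpos s hs.1.le)
        have : 0 < s * F 1 (V 1 a s) := by positivity
        linarith
    exact (hst (left_mem_Icc.2 (by linarith)) (right_mem_Icc.2 (by linarith))
      (by linarith)).trans_le hz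
  set ε := -(V 1 a (t₁ + 1) + M 1 a (t₁ + 1) / (t₁ + 1)) with hε
  have hε0 : 0 < ε := by rw [hε]; linarith
  set p := t₁ + 1 with hp
  have hp0 : 0 < p := by rw [hp]; linarith
  have hanti : AntitoneOn (fun t => t * V 1 a t + ε * t) (Ici p) := by
    have hd : ∀ s, p ≤ s → HasDerivAt (fun t => t * V 1 a t + ε * t)
        (V 1 a s + M 1 a s / s + ε * 1) s := by
      intro s hs
      exact (hasDerivAt_z one_mem (hp0.trans_le hs).ne').fun_add ((hasDerivAt_id' s).const_mul ε)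
    apply antitoneOn_of_deriv_nonpos (convex_Ici _)
    · intro s hs
      exact (hd s hs).continuousAt.continuousWithinAt
    · intro s hs
      rw [interior_Ici] at hs
      exact (hd s (le_of_lt hs)).differentiableAt.differentiableWithinAt
    · intro s hs
      rw [interior_Ici] at hs
      have hs' : p < s := hs
      rw [(hd s hs'.le).deriv]
      have := z'_antitone (a := a) one_mem (mem_Ioi.2 hp0) (mem_Ioi.2 (hp0.trans hs')) hs'.le
      simp only at this
      rw [hε]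
      linarith
  set R := p + p * V 1 a p / ε + 1 with hR
  have hVp : 0 < V 1 a p := hpos p (by rw [hp]; linarith)
  have hRp : p ≤ R := by
    have : 0 ≤ p * V 1 a p / ε := by positivity
    rw [hR]; linarith
  have h1 := hanti (mem_Ici.2 le_rfl) (mem_Ici.2 hRp) hRp
  simp only at h1
  have h2 : ε * R = ε * p + p * V 1 a p + ε := by rw [hR]; field_simp
  have h3 : R * V 1 a R < 0 := by linarith
  have h4 := hpos R (by rw [hp] at hRp; linarith)
  have h5 : 0 < R * V 1 a R := mul_pos (hp0.trans_le hRp) h4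
  linarith

/-- task S4 -/
theorem locR_of_data {a t₁ τ : ℝ} (ha : 0 < a) (ha2 : a < 2) (ht₁ : 0 < t₁) (hτ : 0 < τ)
    (hV1 : 0 < V 1 a t₁) (hz : V 1 a t₁ + M 1 a t₁ / t₁ ≤ 0)
    (hw : t₁ ^ 2 * (V 1 a t₁ ^ 3 + 2 * V 1 a t₁ ^ 6) ≤ 1 / 5)
    (h : ∀ G u μ, Lin 1 (V 1 a) t₁ τ G u μ → 0 < u t₁ ∧
      43 / 10 * (t₁ ^ 2 * (V 1 a t₁ ^ 3 + 2 * V 1 a t₁ ^ 6)) * u t₁ < u t₁ + μ t₁ / t₁) :
    LocR a := by
  have hcr := crosses_of_z' ht₁ hV1 hz
  have hT1 : t₁ < T a := (lt_T_iff ha hcr ht₁.le).2 hV1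
  have hT0 : 0 < T a := T_pos hcr
  set w := t₁ ^ 2 * (V 1 a t₁ ^ 3 + 2 * V 1 a t₁ ^ 6) with hwdef
  have hw0 : 0 < w := by rw [hwdef]; positivity
  -- choose `N`
  have hev : ∀ᶠ t in 𝓝 (T a), -1/2 < V 1 a t := by
    have h1 := (V_cont one_mem a).tendsto (T a)
    rw [V_T hcr] at h1
    exact h1.eventually (lt_mem_nhds (by norm_num))
  obtain ⟨ρ, hρ, hρ'⟩ := Metric.eventually_nhds_iff.1 hev
  set N := T a + ρ / 2 with hN
  have hVN : -1/2 < V 1 a N := hρ' (by
    rw [Real.dist_eq, hN, add_sub_cancel_left, abs_of_pos (by linarith)]; linarith)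
  have hTN : T a < N := by rw [hN]; linarith
  set τ' := min τ (w * t₁ / (2 * T a ^ 3)) with hτ'
  have hτ'0 : 0 < τ' := lt_min hτ (by positivity)
  refine loc_R ha ha2 hτ'0 hcr hTN hVN fun G u μ hl => ?_
  obtain ⟨hu1, hq1⟩ := h G u μ (Lin.mono_tau (hl.mono (hT1.le.trans hTN.le)) (min_le_left _ _))
  set κ := 43 / 10 * w with hκ
  have hκ0 : 0 < κ := by positivity
  set φ : ℝ → ℝ := fun t => u t + μ t / t - κ * t₁ * (u t / t) with hφ
  set φ' : ℝ → ℝ := fun t => -(t * (G t * u t)) - κ * t₁ * (μ t / t ^ 3) + κ * t₁ * (u t / t ^ 2)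
    with hφ'
  have hd : ∀ t ∈ Icc t₁ (T a), HasDerivAt φ (φ' t) t := by
    intro t ht
    have ht0 : 0 < t := ht₁.trans_le ht.1
    have htN : t ∈ Ioc 0 N := ⟨ht0, ht.2.trans hTN.le⟩
    have h1 := (hl.du t htN).fun_add ((hl.dμ t htN).fun_div (hasDerivAt_id' t) ht0.ne')
    have h2 := ((hl.du t htN).fun_div (hasDerivAt_id' t) ht0.ne').const_mul (κ * t₁)
    refine (h1.fun_sub h2).congr_deriv ?_
    simp only [hφ']
    field_simp
    ring
  -- the integrating factor
  set X : ℝ → ℝ := fun t => t * u t * Real.exp (κ * t₁ / t) with hX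
  have hXd : ∀ t ∈ Icc t₁ (T a), HasDerivAt X (Real.exp (κ * t₁ / t) * φ t) t := by
    intro t ht
    have ht0 : 0 < t := ht₁.trans_le ht.1
    have htN : t ∈ Ioc 0 N := ⟨ht0, ht.2.trans hTN.le⟩
    have h1 := (hasDerivAt_id' t).fun_mul (hl.du t htN)
    have h2 : HasDerivAt (fun t => κ * t₁ / t) (-(κ * t₁) / t ^ 2) t := by
      have := (hasDerivAt_const t (κ * t₁)).fun_div (hasDerivAt_id' t) ht0.ne'
      refine this.congr_deriv ?_
      simp
    have h3 := h1.fun_mul h2.exp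
    refine h3.congr_deriv ?_
    simp only [hφ]
    field_simp
    ring
  have hXpos : ∀ t ∈ Icc t₁ (T a), (∀ s ∈ Ico t₁ t, 0 < φ s) → 0 < u t := by
    intro t ht hs
    have ht0 : 0 < t := ht₁.trans_le ht.1
    have hmono : MonotoneOn X (Icc t₁ t) := by
      apply monotoneOn_of_deriv_nonneg (convex_Icc _ _)
      · intro s hs
        exact (hXd s ⟨hs.1, hs.2.trans ht.2⟩).continuousAt.continuousWithinAt
      · intro s hs
        rw [interior_Icc] at hs
        exact (hXd s ⟨hs.1.le, hs.2.le.trans ht.2⟩).differentiableAt.differentiableWithinAt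
      · intro s hs'
        rw [interior_Icc] at hs'
        rw [(hXd s ⟨hs'.1.le, hs'.2.le.trans ht.2⟩).deriv]
        have := hs s ⟨hs'.1.le, hs'.2⟩
        positivity
    have h1 := hmono (left_mem_Icc.2 ht.1) (right_mem_Icc.2 ht.1) ht.1
    have h2 : 0 < X t₁ := by simp only [hX]; positivity
    have h3 : 0 < X t := h2.trans_le h1
    simp only [hX] at h3
    have h4 : 0 < t * u t := by
      by_contra hn
      push Not at hn
      exact absurd h3 (not_lt.2 (mul_nonpos_of_nonpos_of_nonneg hn (Real.exp_pos _).le))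
    exact (mul_pos_iff_of_pos_left ht0).1 h4
  have hzanti := z_antitone one_mem ht₁ hz
  have hφpos : ∀ t ∈ Icc t₁ (T a), 0 < φ t := by
    apply pos_of_barrier hd
    · simp only [hφ]
      have e : κ * t₁ * (u t₁ / t₁) = κ * u t₁ := by field_simp
      rw [e]
      linarith
    · intro t ht hbef hzero
      have ht0 : 0 < t := ht₁.trans_le ht.1
      have htN : t ∈ Ioc 0 N := ⟨ht0, ht.2.trans hTN.le⟩
      have hut := hXpos t ht hbef
      -- bound for `G`
      have hvt0 : 0 ≤ V 1 a t := by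
        rcases eq_or_lt_of_le ht.2 with he | hlt
        · rw [he, V_T hcr]
        · exact (V_pos_of_lt ha hcr ht0.le hlt).le
      have hzle : t * V 1 a t ≤ t₁ * V 1 a t₁ := hzanti (mem_Ici.2 le_rfl) (mem_Ici.2 ht.1) ht.1
      have hG1 := (abs_le.1 (hl.hG t htN)).2
      set x := V 1 a t with hx
      set x₁ := V 1 a t₁ with hx₁
      have hfp : t ^ 3 * fp 1 x ≤ 4 * w * t₁ := by
        have e1 : t ^ 3 * fp 1 x = 4 * (t * x) ^ 3 + 7 * (t * x) ^ 3 * x ^ 3 := by unfold fp; ring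
        have e2 : (t * x) ^ 3 ≤ (t₁ * x₁) ^ 3 := pow_le_pow_left₀ (by positivity) hzle 3
        have e3 : x ≤ x₁ := by
          have : t₁ * x ≤ t * x := mul_le_mul_of_nonneg_right ht.1 hvt0
          exact le_of_mul_le_mul_left (this.trans hzle) ht₁
        have e4 : x ^ 3 ≤ x₁ ^ 3 := pow_le_pow_left₀ hvt0 e3 3
        have e5 : (t * x) ^ 3 * x ^ 3 ≤ (t₁ * x₁) ^ 3 * x₁ ^ 3 := by
          apply mul_le_mul e2 e4 (by positivity) (by positivity)
        rw [e1, hwdef]
        have e6 : 4 * (t₁ ^ 2 * (x₁ ^ 3 + 2 * x₁ ^ 6)) * t₁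
            = 4 * (t₁ * x₁) ^ 3 + 8 * ((t₁ * x₁) ^ 3 * x₁ ^ 3) := by ring
        rw [e6]
        have e7 : 0 ≤ (t₁ * x₁) ^ 3 * x₁ ^ 3 := by positivity
        linarith
      have hτt : t ^ 3 * τ' ≤ w * t₁ / 2 := by
        have e1 : t ^ 3 ≤ T a ^ 3 := pow_le_pow_left₀ ht0.le ht.2 3
        calc t ^ 3 * τ' ≤ T a ^ 3 * (w * t₁ / (2 * T a ^ 3)) := by
              apply mul_le_mul e1 (min_le_right _ _) hτ'0.le (by positivity)
          _ = w * t₁ / 2 := by field_simp
      have hGt : t ^ 3 * G t ≤ 9 / 2 * w * t₁ := by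
        have e1 : t ^ 3 * G t ≤ t ^ 3 * (fp 1 x + τ') := by
          apply mul_le_mul_of_nonneg_left _ (by positivity)
          linarith
        linarith [e1, mul_add (t ^ 3) (fp 1 x) τ']
      -- evaluate `φ'`
      have hμ : μ t = (κ * t₁ / t - 1) * u t * t := by
        have e1 : u t + μ t / t - κ * t₁ * (u t / t) = 0 := hzero
        have e2 : μ t / t = κ * t₁ * (u t / t) - u t := by linarith
        rw [div_eq_iff ht0.ne'] at e2
        rw [e2]
        ring
      have hφ't : φ' t = u t / t ^ 3 * (-(t * (t ^ 3 * G t)) - κ ^ 2 * t₁ ^ 2 + 2 * κ * t₁ * t) := by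
        simp only [hφ']
        rw [hμ]
        field_simp
        ring
      rw [hφ't]
      apply mul_pos (by positivity)
      have f1 : t * (t ^ 3 * G t) ≤ t * (9 / 2 * w * t₁) := by gcongr
      have f2 : κ ^ 2 * t₁ ^ 2 ≤ κ ^ 2 * t₁ * t := by
        have : t₁ ^ 2 ≤ t₁ * t := by
          rw [pow_two]; exact mul_le_mul_of_nonneg_left ht.1 ht₁.le
        calc κ ^ 2 * t₁ ^ 2 ≤ κ ^ 2 * (t₁ * t) := by gcongr
          _ = _ := by ring
      have f3 : 0 < t₁ * t * (2 * κ - κ ^ 2 - 9 / 2 * w) := by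
        apply mul_pos (by positivity)
        rw [hκ]
        have e9 : 2 * (43 / 10 * w) - (43 / 10 * w) ^ 2 - 9 / 2 * w
            = w * (41 / 10 - 1849 / 100 * w) := by ring
        rw [e9]
        exact mul_pos hw0 (by linarith)
      linarith
  exact hXpos (T a) ⟨hT1.le, le_rfl⟩ fun s hs => hφpos s ⟨hs.1, hs.2.le⟩

end LinNi.H93
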